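import Pool.Agent.Helper22.AEL.Sym

/-!
# Limits along ultrafilters, idempotents, and a minimal set of low complexity
-/

set_option autoImplicit false

namespace Pool.Agent.Helper22.AEL

open Filter

attribute [local instance] Ultrafilter.add Ultrafilter.addSemigroup

section

variable {k : ℕ} {t : ℕ → ℕ}

theorem exists_act (U : Ultrafilter ℕ) (f : ℕ → Fin k) : ∃ v, ∀ᶠ n in (U : Filter ℕ), f n = v := by
  obtain ⟨v, hv⟩ := Ultrafilter.eq_pure_of_finite (U.map f)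
  refine ⟨v, ?_⟩
  have h1 : ({v} : Set (Fin k)) ∈ U.map f := by
    rw [hv]
    exact Set.mem_singleton v
  exact h1

/-- the limit of `T^n z` along `U` -/
noncomputable def act (t : ℕ → ℕ) (U : Ultrafilter ℕ) (z : ℕ → Fin k) : ℕ → Fin k :=
  fun i => (exists_act U fun n => sh t n z i).choose

theorem act_ev (U : Ultrafilter ℕ) (z : ℕ → Fin k) (i : ℕ) :
    ∀ᶠ n in (U : Filter ℕ), sh t n z i = act t U z i :=
  (exists_act U fun n => sh t n z i).choose_spec

theorem act_ag (U : Ultrafilter ℕ) (z : ℕ → Fin k) (m : ℕ) :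
    ∀ᶠ n in (U : Filter ℕ), Ag m (sh t n z) (act t U z) := by
  have h1 := (Filter.eventually_all_finite (Set.finite_Iio m) (l := (U : Filter ℕ))
    (p := fun i n => sh t n z i = act t U z i)).2 fun i _ => act_ev U z i
  exact h1

theorem act_uniq {U : Ultrafilter ℕ} {z : ℕ → Fin k} {i : ℕ} {v : Fin k}
    (h : ∀ᶠ n in (U : Filter ℕ), sh t n z i = v) : act t U z i = v := by
  obtain ⟨n, h1, h2⟩ := (h.and (act_ev U z i)).exists
  rw [← h1, ← h2]

theorem act_eq {U : Ultrafilter ℕ} {z w : ℕ → Fin k}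
    (h : ∀ m, ∀ᶠ n in (U : Filter ℕ), Ag m (sh t n z) w) : act t U z = w := by
  funext i
  refine act_uniq ?_
  filter_upwards [h (i + 1)] with n hn
  exact hn i (Nat.lt_succ_self i)

theorem act_add (U V : Ultrafilter ℕ) (z : ℕ → Fin k) :
    act t (U + V) z = act t U (act t V z) := by
  funext i
  refine act_uniq ?_
  rw [Ultrafilter.eventually_add]
  filter_upwards [act_ev (t := t) U (act t V z) i] with m hm
  filter_upwards [act_ev (t := t) V z (t^[m] i)] with m' hm'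
  rw [sh_add]
  change sh t m' z (t^[m] i) = _
  rw [hm', ← hm]
  rfl

theorem act_mem {M : Set (ℕ → Fin k)} (hM : IsClosed M) (hinv : ∀ z ∈ M, sh t 1 z ∈ M)
    (U : Ultrafilter ℕ) {z : ℕ → Fin k} (hz : z ∈ M) : act t U z ∈ M := by
  refine mem_of_ag hM fun m => ?_
  obtain ⟨n, hn⟩ := (act_ag (t := t) U z m).exists
  exact ⟨sh t n z, inv_sh hinv n hz, hn⟩

theorem continuous_act (z : ℕ → Fin k) : Continuous (fun U : Ultrafilter ℕ => act t U z) := by
  refine continuous_pi fun i => ?_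
  refine continuous_discrete_rng.2 fun v => ?_
  have h1 : (fun U : Ultrafilter ℕ => act t U z i) ⁻¹' {v} =
      {U : Ultrafilter ℕ | {n | sh t n z i = v} ∈ U} := by
    ext U
    constructor
    · intro h
      have h2 : act t U z i = v := h
      rw [← h2]
      exact act_ev U z i
    · intro h
      exact act_uniq h
  rw [h1]
  exact ultrafilter_isOpen_basic _

/-- ultrafilters which contain all end segments -/
def Late (U : Ultrafilter ℕ) : Prop := ∀ N, ∀ᶠ n in (U : Filter ℕ), N ≤ n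

theorem Late.prox {U : Ultrafilter ℕ} (hU : Late U) {x y : ℕ → Fin k}
    (h : act t U x = act t U y) : Prox t x y := by
  intro m N
  have h1 := act_ag (t := t) U x m
  have h2 := act_ag (t := t) U y m
  obtain ⟨n, ⟨h3, h4⟩, h5⟩ := ((h1.and h2).and (hU N)).exists
  exact ⟨n, h5, h3.trans ((h ▸ h4.symm))⟩

theorem Late.idem {U : Ultrafilter ℕ} (hU : Late U) {z : ℕ → Fin k}
    (h : act t U (act t U z) = act t U z) : Prox t z (act t U z) :=
  hU.prox h.symm

/-- a late ultrafilter from recurrent agreement of finitely many sequences -/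
theorem exists_late (P : ℕ → ℕ → Prop) (hP : ∀ m m', m ≤ m' → ∀ n, P m' n → P m n)
    (h : ∀ m, ∃ n ≥ m, P m n) :
    ∃ U : Ultrafilter ℕ, Late U ∧ ∀ m, ∀ᶠ n in (U : Filter ℕ), P m n := by
  have h1 : (⨅ m, 𝓟 {n : ℕ | m ≤ n ∧ P m n}).NeBot := by
    refine iInf_neBot_of_directed ?_ fun m => ?_
    · intro m m'
      refine ⟨max m m', ?_, ?_⟩
      · refine principal_mono.2 fun n hn => ⟨le_trans (le_max_left _ _) hn.1,
          hP _ _ (le_max_left _ _) n hn.2⟩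
      · refine principal_mono.2 fun n hn => ⟨le_trans (le_max_right _ _) hn.1,
          hP _ _ (le_max_right _ _) n hn.2⟩
    · rw [principal_neBot_iff]
      obtain ⟨n, hn, hn'⟩ := h m
      exact ⟨n, hn, hn'⟩
  obtain ⟨U, hU⟩ := Ultrafilter.exists_le (⨅ m, 𝓟 {n : ℕ | m ≤ n ∧ P m n})
  have h2 : ∀ m, ∀ᶠ n in (U : Filter ℕ), m ≤ n ∧ P m n := fun m =>
    hU (mem_iInf_of_mem m (mem_principal_self _))
  exact ⟨U, fun N => (h2 N).mono fun n hn => hn.1, fun m => (h2 m).mono fun n hn => hn.2⟩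

/-- idempotents -/
theorem exists_idem {M : Set (ℕ → Fin k)} (hM : IsClosed M) (hinv : ∀ z ∈ M, sh t 1 z ∈ M)
    (x : ℕ → Fin k) (C : Set (ℕ → Fin k))
    (hne : ∃ U : Ultrafilter ℕ, Late U ∧ act t U x ∈ M ∧ ∀ θ ∈ C, act t U θ = θ) :
    ∃ U : Ultrafilter ℕ, Late U ∧ act t U x ∈ M ∧ (∀ θ ∈ C, act t U θ = θ) ∧
      ∀ z : ℕ → Fin k, act t U (act t U z) = act t U z := by
  have hcl : IsClosed {U : Ultrafilter ℕ | Late U ∧ act t U x ∈ M ∧ ∀ θ ∈ C, act t U θ = θ} := by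
    have h1 : {U : Ultrafilter ℕ | Late U ∧ act t U x ∈ M ∧ ∀ θ ∈ C, act t U θ = θ} =
        (⋂ N, {U : Ultrafilter ℕ | {n | N ≤ n} ∈ U}) ∩
          (((fun U : Ultrafilter ℕ => act t U x) ⁻¹' M) ∩
          ⋂ θ ∈ C, (fun U : Ultrafilter ℕ => act t U θ) ⁻¹' {θ}) := by
      ext U
      simp only [Set.mem_inter_iff, Set.mem_iInter]
      rfl
    rw [h1]
    refine IsClosed.inter (isClosed_iInter fun N => ultrafilter_isClosed_basic _)
      (IsClosed.inter (hM.preimage (continuous_act x))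
        (isClosed_biInter fun θ _ => isClosed_singleton.preimage (continuous_act θ)))
  obtain ⟨U, hU, hUU⟩ := exists_idempotent_in_compact_add_subsemigroup
    (fun V : Ultrafilter ℕ => Ultrafilter.continuous_add_left V)
    {U : Ultrafilter ℕ | Late U ∧ act t U x ∈ M ∧ ∀ θ ∈ C, act t U θ = θ} hne hcl.isCompact
    (by
      rintro U ⟨hU1, hU2, hU3⟩ V ⟨hV1, hV2, hV3⟩
      refine ⟨fun N => ?_, ?_, fun θ hθ => ?_⟩
      · rw [Ultrafilter.eventually_add]
        filter_upwards with m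
        filter_upwards [hV1 N] with m' hm'
        omega
      · rw [act_add]
        exact act_mem hM hinv U hV2
      · rw [act_add, hV3 θ hθ, hU3 θ hθ])
  exact ⟨U, hU.1, hU.2.1, hU.2.2, fun z => by rw [← act_add, hUU]⟩

/-! ### a minimal set -/

/-- the word `e` can be avoided for arbitrarily long times, together with the words in `a` -/
def TH (t : ℕ → ℕ) (x : ℕ → Fin k) (e a : ℕ) : Prop :=
  ∀ L, ∃ n, ∀ l < L, sh t (n + l) x ∉ (cy e.unpair.1 e.unpair.2 : Set (ℕ → Fin k)) ∧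
    ∀ e' < e, dg 2 a e' = 1 → sh t (n + l) x ∉ (cy e'.unpair.1 e'.unpair.2 : Set (ℕ → Fin k))

open Classical in
/-- codes of the avoided words -/
noncomputable def av (t : ℕ → ℕ) (x : ℕ → Fin k) : ℕ → ℕ
  | 0 => 0
  | e + 1 => av t x e + (if TH t x e (av t x e) then 1 else 0) * 2 ^ e

/-- the avoided words -/
def AV (t : ℕ → ℕ) (x : ℕ → Fin k) (e : ℕ) : Prop := TH t x e (av t x e)

theorem av_lt (x : ℕ → Fin k) (e : ℕ) : av t x e < 2 ^ e := by
  classical
  induction e with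
  | zero => exact Nat.one_pos
  | succ e ih =>
    unfold av
    refine app_lt ih ?_
    split_ifs <;> omega

theorem dg_av (x : ℕ → Fin k) {e e' : ℕ} (h : e' < e) : dg 2 (av t x e) e' = 1 ↔ AV t x e' := by
  classical
  induction e with
  | zero => exact absurd h (Nat.not_lt_zero _)
  | succ e ih =>
    unfold av
    rcases Nat.lt_succ_iff_lt_or_eq.1 h with h1 | h1
    · rw [dg_app_lt (by omega) h1, ih h1]
    · rw [h1, dg_app_eq (av_lt x e) (by split_ifs <;> omega)]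
      unfold AV
      by_cases h2 : TH t x e (av t x e)
      · simp [h2]
      · simp [h2]

theorem AV_iff (x : ℕ → Fin k) (e : ℕ) : AV t x e ↔
    ∀ L, ∃ n, ∀ l < L, sh t (n + l) x ∉ (cy e.unpair.1 e.unpair.2 : Set (ℕ → Fin k)) ∧
    ∀ e' < e, AV t x e' → sh t (n + l) x ∉ (cy e'.unpair.1 e'.unpair.2 : Set (ℕ → Fin k)) := by
  unfold AV TH
  refine forall_congr' fun L => exists_congr fun n => forall_congr' fun l =>
    imp_congr_right fun _ => and_congr_right fun _ => forall_congr' fun e' =>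
    forall_congr' fun he' => ?_
  rw [dg_av x he']
  rfl

theorem LP_TH (ht : Computable t) {x : ℕ → Fin k} (hx : Computable x) :
    LP 2 (fun p : ℕ × ℕ => TH t x p.1 p.2) := by
  have hx0 : Lim 0 x := hx
  -- variables `((((e, a), L), n), l)`
  have c1 : Computable (fun q : (((ℕ × ℕ) × ℕ) × ℕ) × ℕ => q.1.1.1.1) :=
    Computable.fst.comp (Computable.fst.comp (Computable.fst.comp Computable.fst))
  have c2 : Computable (fun q : (((ℕ × ℕ) × ℕ) × ℕ) × ℕ => q.1.2 + q.2) :=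
    Primrec.nat_add.to_comp.comp (Computable.snd.comp Computable.fst) Computable.snd
  have h1 : LP 0 (fun q : (((ℕ × ℕ) × ℕ) × ℕ) × ℕ =>
      sh t (q.1.2 + q.2) x ∈ (cy q.1.1.1.1.unpair.1 q.1.1.1.1.unpair.2 : Set (ℕ → Fin k))) :=
    LP.cy ht hx0 (Lim.of_computable 0 c2) (Lim.of_computable 0 c1).unpair₁
      (Lim.of_computable 0 c1).unpair₂
  have h2 : LP 0 (fun q : ((((ℕ × ℕ) × ℕ) × ℕ) × ℕ) × ℕ => dg 2 q.1.1.1.1.2 q.2 = 1 →
      ¬ sh t (q.1.1.2 + q.1.2) x ∈ (cy q.2.unpair.1 q.2.unpair.2 : Set (ℕ → Fin k))) := by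
    refine LP.imp (LP.eq (Lim.dg (Lim.of_computable 0 ?_) (Lim.of_computable 0 Computable.snd))
      (Lim.const 1)) (LP.not (LP.cy ht hx0 (Lim.of_computable 0 (c2.comp Computable.fst))
      (Lim.of_computable 0 Computable.snd).unpair₁ (Lim.of_computable 0 Computable.snd).unpair₂))
    exact (Computable.snd.comp (Computable.fst.comp (Computable.fst.comp Computable.fst))).comp
      Computable.fst
  have h3 : LP 0 (fun q : (((ℕ × ℕ) × ℕ) × ℕ) × ℕ =>
      ¬ sh t (q.1.2 + q.2) x ∈ (cy q.1.1.1.1.unpair.1 q.1.1.1.1.unpair.2 : Set (ℕ → Fin k)) ∧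
      ∀ e' < q.1.1.1.1, dg 2 q.1.1.1.2 e' = 1 →
      ¬ sh t (q.1.2 + q.2) x ∈ (cy e'.unpair.1 e'.unpair.2 : Set (ℕ → Fin k))) :=
    h1.not.and (LP.ball h2 (Lim.of_computable 0 c1))
  have h4 := LP.ball (α := ((ℕ × ℕ) × ℕ) × ℕ) (g := fun q => q.1.2) h3
    (Lim.of_computable 0 (Computable.snd.comp Computable.fst))
  exact h4.ex.all

theorem LP_AV (ht : Computable t) {x : ℕ → Fin k} (hx : Computable x) : LP 2 (AV t x) := by
  classical
  have h1 := LP_TH ht hx
  have c1 : Lim 2 (fun q : Unit × ℕ × ℕ => q.2.1) :=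
    Lim.of_computable 2 (Computable.fst.comp Computable.snd)
  have c2 : Lim 2 (fun q : Unit × ℕ × ℕ => q.2.2) :=
    Lim.of_computable 2 (Computable.snd.comp Computable.snd)
  have h2 := Lim.rec (f := fun _ : Unit => 0)
    (h := fun q : Unit × ℕ × ℕ => q.2.2 + (if TH t x q.2.1 q.2.2 then 1 else 0) * 2 ^ q.2.1)
    (Lim.const 0) (c2.add ((Lim.ite (h1.comp (c1.pair c2)) (Lim.const 1) (Lim.const 0)).mul c1.pow))
  have h3 := h2.comp ((Lim.const (α := ℕ) ()).pair Lim.id)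
  have h4 : (fun e : ℕ => (Nat.rec 0 (fun j r => r + (if TH t x j r then 1 else 0) * 2 ^ j) e : ℕ)) =
      av t x := by
    funext e
    induction e with
    | zero => rfl
    | succ e ih =>
      unfold av
      rw [← ih]
  have h5 : Lim 2 (av t x) := by
    rw [← h4]
    exact h3
  exact h1.comp (Lim.id.pair h5)

theorem AV_window (x : ℕ → Fin k) (E L N : ℕ) : ∃ n ≥ N, ∀ l < L, ∀ e < E, AV t x e →
    sh t (n + l) x ∉ (cy e.unpair.1 e.unpair.2 : Set (ℕ → Fin k)) := by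
  induction E generalizing L N with
  | zero => exact ⟨N, le_rfl, fun l _ e he => absurd he (Nat.not_lt_zero e)⟩
  | succ E ih =>
    by_cases hE : AV t x E
    · obtain ⟨n, hn⟩ := (AV_iff x E).1 hE (N + L)
      refine ⟨n + N, by omega, fun l hl e he hA => ?_⟩
      obtain ⟨h1, h2⟩ := hn (N + l) (by omega)
      rw [add_assoc]
      rcases Nat.lt_succ_iff_lt_or_eq.1 he with h3 | h3
      · exact h2 e h3 hA
      · rw [h3]
        exact h1
    · obtain ⟨n, hn, h⟩ := ih L N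
      refine ⟨n, hn, fun l hl e he hA => ?_⟩
      rcases Nat.lt_succ_iff_lt_or_eq.1 he with h3 | h3
      · exact h l hl e h3 hA
      · rw [h3] at hA
        exact absurd hA hE

theorem AV_hit (x : ℕ → Fin k) {e : ℕ} (he : ¬ AV t x e) : ∃ L, ∀ n, ∃ l < L,
    sh t (n + l) x ∈ (cy e.unpair.1 e.unpair.2 : Set (ℕ → Fin k)) ∨ ∃ e' < e, AV t x e' ∧
      sh t (n + l) x ∈ (cy e'.unpair.1 e'.unpair.2 : Set (ℕ → Fin k)) := by
  rw [AV_iff] at he
  push Not at he
  obtain ⟨L, hL⟩ := he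
  refine ⟨L, fun n => ?_⟩
  obtain ⟨l, hl, h⟩ := hL n
  refine ⟨l, hl, ?_⟩
  by_cases h1 : sh t (n + l) x ∈ (cy e.unpair.1 e.unpair.2 : Set (ℕ → Fin k))
  · exact Or.inl h1
  · obtain ⟨e', h2, h3, h4⟩ := h h1
    exact Or.inr ⟨e', h2, h3, h4⟩

/-- the greedy minimal set -/
def MM (t : ℕ → ℕ) (x : ℕ → Fin k) : Set (ℕ → Fin k) :=
  {z | ∀ e, AV t x e → ∀ n, sh t n z ∉ (cy e.unpair.1 e.unpair.2 : Set (ℕ → Fin k))}

theorem MM_closed (x : ℕ → Fin k) : IsClosed (MM t x) := by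
  have h1 : MM t x = ⋂ e, ⋂ (_ : AV t x e), ⋂ n,
      (sh t n ⁻¹' (cy e.unpair.1 e.unpair.2 : Set (ℕ → Fin k)))ᶜ := by
    ext z
    simp only [Set.mem_iInter]
    rfl
  rw [h1]
  exact isClosed_iInter fun e => isClosed_iInter fun _ => isClosed_iInter fun n =>
    ((isOpen_cy _ _).preimage (continuous_sh t n)).isClosed_compl

theorem MM_inv (x : ℕ → Fin k) : ∀ z ∈ MM t x, sh t 1 z ∈ MM t x := by
  intro z hz e he n
  rw [← sh_add]
  exact hz e he (n + 1)

theorem MM_ne (x : ℕ → Fin k) : (MM t x).Nonempty := by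
  have h1 := IsCompact.nonempty_iInter_of_sequence_nonempty_isCompact_isClosed
    (fun j : ℕ => {z : ℕ → Fin k | ∀ e < j, AV t x e → ∀ n < j,
      sh t n z ∉ (cy e.unpair.1 e.unpair.2 : Set (ℕ → Fin k))}) ?_ ?_ ?_ ?_
  · obtain ⟨z, hz⟩ := h1
    rw [Set.mem_iInter] at hz
    refine ⟨z, fun e he n => hz (max e n + 1) e ?_ he n ?_⟩
    · exact Nat.lt_succ_of_le (le_max_left _ _)
    · exact Nat.lt_succ_of_le (le_max_right _ _)
  · intro j z hz e he hA n hn
    exact hz e (by omega) hA n (by omega)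
  · intro j
    obtain ⟨n, -, hn⟩ := AV_window (t := t) x j j 0
    refine ⟨sh t n x, fun e he hA l hl => ?_⟩
    rw [← sh_add, add_comm]
    exact hn l hl e he hA
  · have h2 : {z : ℕ → Fin k | ∀ e < 0, AV t x e → ∀ n < 0,
        sh t n z ∉ (cy e.unpair.1 e.unpair.2 : Set (ℕ → Fin k))} = Set.univ := by
      ext z
      simp
    rw [h2]
    exact isCompact_univ
  · intro j
    have h3 : {z : ℕ → Fin k | ∀ e < j, AV t x e → ∀ n < j,
        sh t n z ∉ (cy e.unpair.1 e.unpair.2 : Set (ℕ → Fin k))} =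
        ⋂ e, ⋂ (_ : e < j), ⋂ (_ : AV t x e), ⋂ n, ⋂ (_ : n < j),
      (sh t n ⁻¹' (cy e.unpair.1 e.unpair.2 : Set (ℕ → Fin k)))ᶜ := by
      ext z
      simp only [Set.mem_iInter]
      rfl
    rw [h3]
    exact isClosed_iInter fun e => isClosed_iInter fun _ => isClosed_iInter fun _ =>
      isClosed_iInter fun n => isClosed_iInter fun _ =>
      ((isOpen_cy _ _).preimage (continuous_sh t n)).isClosed_compl

theorem MM_not {x z : ℕ → Fin k} (hz : z ∈ MM t x) {m s : ℕ} (h : z ∈ cy m s) :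
    ¬ AV t x (Nat.pair m s) := by
  intro hA
  have h1 := hz _ hA 0
  rw [Nat.unpair_pair, sh_zero] at h1
  exact h1 h

theorem MM_late {x z : ℕ → Fin k} (hz : z ∈ MM t x) (m N : ℕ) : ∃ n ≥ N, Ag m (sh t n x) z := by
  have h1 : ¬ AV t x (Nat.pair m (pc z m)) := MM_not hz (mem_cy_pc.2 (Ag.refl m z))
  obtain ⟨L, hL⟩ := AV_hit x h1
  obtain ⟨n, hn, hw⟩ := AV_window (t := t) x (Nat.pair m (pc z m)) L N
  obtain ⟨l, hl, h2 | ⟨e', he', hA, h2⟩⟩ := hL n
  · rw [Nat.unpair_pair] at h2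
    exact ⟨n + l, by omega, mem_cy_pc.1 h2⟩
  · exact absurd h2 (hw l hl e' he' hA)

theorem MM_hit {x z : ℕ → Fin k} (hz : z ∈ MM t x) {m s : ℕ} (h : ¬ AV t x (Nat.pair m s)) :
    ∃ L, ∀ n, ∃ l < L, sh t (n + l) z ∈ (cy m s : Set (ℕ → Fin k)) := by
  obtain ⟨L, hL⟩ := AV_hit x h
  refine ⟨L, fun n => ?_⟩
  obtain ⟨K, -, hK⟩ := exists_mod t (Nat.pair m s) (n + L)
  obtain ⟨n', -, hn'⟩ := MM_late hz K 0
  have hag : ∀ l < L, Ag (Nat.pair m s) (sh t (n' + (n + l)) x) (sh t (n + l) z) := by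
    intro l hl
    rw [add_comm, sh_add]
    exact hn'.sh (hK (n + l) (by omega))
  obtain ⟨l, hl, h2⟩ := hL (n' + n)
  rw [add_assoc] at h2
  refine ⟨l, hl, ?_⟩
  rcases h2 with h2 | ⟨e', he', hA, h2⟩
  · rw [Nat.unpair_pair] at h2
    exact (mem_cy_congr ((hag l hl).mono (Nat.left_le_pair m s))).1 h2
  · exfalso
    refine hz e' hA (n + l) ((mem_cy_congr ((hag l hl).mono ?_)).1 h2)
    exact (Nat.unpair_left_le e').trans he'.le

theorem MM_iff (x : ℕ → Fin k) (m s : ℕ) : (∃ z ∈ MM t x, z ∈ (cy m s : Set (ℕ → Fin k))) ↔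
    ¬ AV t x (Nat.pair m s) := by
  constructor
  · rintro ⟨z, hz, h⟩
    exact MM_not hz h
  · intro h
    obtain ⟨z, hz⟩ := MM_ne (t := t) x
    obtain ⟨L, hL⟩ := MM_hit hz h
    obtain ⟨l, -, hl⟩ := hL 0
    exact ⟨_, inv_sh (MM_inv x) _ hz, hl⟩

theorem MM_UR {x z : ℕ → Fin k} (hz : z ∈ MM t x) : UR t z := by
  intro m
  obtain ⟨L, hL⟩ := MM_hit hz (MM_not hz (mem_cy_pc.2 (Ag.refl m z)))
  refine ⟨L, fun n => ?_⟩
  obtain ⟨l, hl, h⟩ := hL n
  exact ⟨l, hl, mem_cy_pc.1 h⟩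

theorem MM_minimal (x : ℕ → Fin k) : MinimalSet t (MM t x) where
  ne := MM_ne x
  closed := MM_closed x
  inv := MM_inv x
  dense := by
    intro z hz w hw m
    obtain ⟨L, hL⟩ := MM_hit hz (MM_not hw (mem_cy_pc.2 (Ag.refl m w)))
    obtain ⟨l, -, h⟩ := hL 0
    exact ⟨0 + l, mem_cy_pc.1 h⟩

theorem MM_OC (x : ℕ → Fin k) : MM t x ⊆ OC t x := by
  intro z hz m
  obtain ⟨n, -, h⟩ := MM_late hz m 0
  exact ⟨n, h⟩

theorem LP_MM (ht : Computable t) {x : ℕ → Fin k} (hx : Computable x) :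
    LP 2 (fun p : ℕ × ℕ => ∃ z ∈ MM t x, z ∈ (cy p.1 p.2 : Set (ℕ → Fin k))) := by
  have h1 : LP 2 (fun p : ℕ × ℕ => ¬ AV t x (Nat.pair p.1 p.2)) :=
    LP.not ((LP_AV ht hx).comp (Lim.of_computable 2 Primrec₂.natPair.to_comp))
  exact h1.congr fun p => MM_iff x p.1 p.2

end

end Pool.Agent.Helper22.AEL
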