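import Pool.Agent.Helper22.AEL.Dist

/-!
# Solutions in the three cases: distal, proximal extension of a rotation, weakly mixing
-/

set_option autoImplicit false

namespace Pool.Agent.Helper22.AEL

open Filter Topology

attribute [local instance] Ultrafilter.add Ultrafilter.addSemigroup

section

variable {k : ℕ} {t : ℕ → ℕ}

/-- `M` is distal: different points of `M` are not proximal -/
def DistalOn (t : ℕ → ℕ) (M : Set (ℕ → Fin k)) : Prop := ∀ z ∈ M, ∀ w ∈ M, Prox t z w → z = w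

/-- `M` is a proximal extension of a rotation: there are a Hausdorff abelian topological group `A`,
`g` in `A` and a continuous map `π` from `M` to `A` with `π (T z) = π z + g` such that all points of
`M` with the same image are proximal -/
def RotOn (t : ℕ → ℕ) (M : Set (ℕ → Fin k)) : Prop :=
  ∃ (A : Type) (_ : AddCommGroup A) (_ : TopologicalSpace A) (_ : IsTopologicalAddGroup A)
    (_ : T2Space A) (g : A) (π : (ℕ → Fin k) → A), ContinuousOn π M ∧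
    (∀ z ∈ M, π (sh t 1 z) = π z + g) ∧ ∀ z ∈ M, ∀ w ∈ M, π z = π w → Prox t z w

/-- `M` is weakly mixing: for nonempty open sets `A, B, C, D` of `M` there is `n` such that
`T^n A` meets `B` and `T^n C` meets `D` -/
def WMOn (t : ℕ → ℕ) (M : Set (ℕ → Fin k)) : Prop :=
  ∀ a ∈ M, ∀ b ∈ M, ∀ c ∈ M, ∀ d ∈ M, ∀ m, ∃ n,
    (∃ w ∈ M, Ag m w a ∧ Ag m (sh t n w) b) ∧ ∃ w ∈ M, Ag m w c ∧ Ag m (sh t n w) d

theorem pos_of_point (x : ℕ → Fin k) : 0 < k :=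
  Nat.pos_of_ne_zero (by rintro rfl; exact (x 0).elim0)

theorem exists_late_mem {x z : ℕ → Fin k}
    (hl : ∀ m N, ∃ n ≥ N, Ag m (sh t n x) z) : ∃ U : Ultrafilter ℕ, Late U ∧ act t U x = z := by
  obtain ⟨U, hU, h⟩ := exists_late (fun m n => Ag m (sh t n x) z)
    (fun m m' hm n h => h.mono hm) (fun m => hl m m)
  exact ⟨U, hU, act_eq h⟩

theorem exists_path' (x : ℕ → Fin k) {M : Set (ℕ → Fin k)} {F : Set (Set (ℕ → Fin k))}
    (hF : ∀ f : Fin k → Set (ℕ → Fin k), (∀ v, f v ∈ F) → ∃ Θ ∈ F, ∀ v, f v ⊆ Θ)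
    (hL : LP 4 (Gd t x M F)) (h0 : Gd t x M F (0, 0)) :
    ∃ y : ℕ → Fin k, Lim 4 y ∧ ∀ m, Gd t x M F (m, pc y m) :=
  exists_path (pos_of_point x) hL h0 fun m s hs h => Gd_succ x M F hF m s hs h

/-- the distal case -/
theorem case_distal (ht : Computable t) {x : ℕ → Fin k} (hx : Computable x)
    {M : Set (ℕ → Fin k)} (hM : MinimalSet t M) (hLM : LP 2 (LM M))
    (hl : ∀ z ∈ M, ∀ m N, ∃ n ≥ N, Ag m (sh t n x) z) (hd : DistalOn t M) :
    ∃ y ∈ M, Prox t x y ∧ Lim 4 y := by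
  obtain ⟨z, hz⟩ := hM.ne
  obtain ⟨U₀, hU₀, hx₀⟩ := exists_late_mem (hl z hz)
  obtain ⟨U, hU, hUx, -, hUi⟩ := exists_idem hM.closed hM.inv x ∅
    ⟨U₀, hU₀, by rw [hx₀]; exact hz, fun θ hθ => absurd hθ (Set.notMem_empty θ)⟩
  have hfix : ∀ θ ∈ M, act t U θ = θ := fun θ hθ =>
    (hd θ hθ _ (act_mem hM.closed hM.inv U hθ) (hU.idem (hUi θ))).symm
  have h0 : Gd t x M {Θ | Θ.Finite ∧ Θ ⊆ M} (0, 0) :=
    Gd_zero x M _ (fun Θ hΘ => hΘ.1) U hU hUx fun Θ hΘ θ hθ => hfix θ (hΘ.2 hθ)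
  have hdir : ∀ f : Fin k → Set (ℕ → Fin k), (∀ v, f v ∈ {Θ : Set (ℕ → Fin k) | Θ.Finite ∧ Θ ⊆ M}) →
      ∃ Θ ∈ {Θ : Set (ℕ → Fin k) | Θ.Finite ∧ Θ ⊆ M}, ∀ v, f v ⊆ Θ := fun f hf =>
    ⟨⋃ v, f v, ⟨Set.finite_iUnion fun v => (hf v).1, Set.iUnion_subset fun v => (hf v).2⟩,
      fun v => Set.subset_iUnion f v⟩
  obtain ⟨y, hyL, hy⟩ := exists_path' x hdir (LP_Gd_fin hM.closed hLM ht hx) h0
  have hne : ({Θ : Set (ℕ → Fin k) | Θ.Finite ∧ Θ ⊆ M}).Nonempty :=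
    ⟨∅, Set.finite_empty, Set.empty_subset _⟩
  have hyM : y ∈ M := Gd_mem hM.closed hne hy
  refine ⟨y, hyM, fun m N => ?_, hyL⟩
  obtain ⟨n, h1, h2, -, h3⟩ := hy (max m N) (max m N) {y}
    ⟨Set.finite_singleton y, Set.singleton_subset_iff.2 hyM⟩
  refine ⟨n, le_trans (le_max_right _ _) h1, ?_⟩
  exact ((mem_cy_pc.1 h2).mono (le_max_left _ _)).trans
    ((h3 y (Set.mem_singleton y)).mono (le_max_left _ _)).symm

theorem tendsto_of_ag {U : Ultrafilter ℕ} {f : ℕ → ℕ → Fin k} {z : ℕ → Fin k}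
    (h : ∀ m, ∀ᶠ n in (U : Filter ℕ), Ag m (f n) z) : Tendsto f U (𝓝 z) := by
  refine tendsto_pi_nhds.2 fun i => ?_
  refine tendsto_const_nhds.congr' ?_
  filter_upwards [h (i + 1)] with n hn
  exact (hn i (Nat.lt_succ_self i)).symm

/-- a point of `M` which is computable in `0''` -/
theorem exists_point (x : ℕ → Fin k) {M : Set (ℕ → Fin k)} (hM : MinimalSet t M)
    (hLM : LP 2 (LM M)) : ∃ θ ∈ M, Lim 2 θ := by
  obtain ⟨z, hz⟩ := hM.ne
  obtain ⟨y, hyL, hy⟩ := exists_path (pos_of_point x) hLM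
    ⟨z, hz, fun i hi => absurd hi (Nat.not_lt_zero i)⟩ (by
      rintro m s hs ⟨z, hz, h⟩
      exact ⟨z m, (z m).2, z, hz, (mem_cy_app hs (z m).2).2 ⟨h, rfl⟩⟩)
  refine ⟨y, mem_of_ag hM.closed fun m => ?_, hyL⟩
  obtain ⟨w, hw, h⟩ := hy m
  exact ⟨w, hw, mem_cy_pc.1 h⟩

/-- the case of a proximal extension of a rotation -/
theorem case_rot (ht : Computable t) {x : ℕ → Fin k} (hx : Computable x)
    {M : Set (ℕ → Fin k)} (hM : MinimalSet t M) (hLM : LP 2 (LM M))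
    (hl : ∀ z ∈ M, ∀ m N, ∃ n ≥ N, Ag m (sh t n x) z) (hr : RotOn t M) :
    ∃ y ∈ M, Prox t x y ∧ Lim 4 y := by
  obtain ⟨z, hz⟩ := hM.ne
  obtain ⟨θ, hθ, hθL⟩ := exists_point x hM hLM
  obtain ⟨U₀, hU₀, hx₀⟩ := exists_late_mem (hl z hz)
  have hw : act t U₀ θ ∈ M := act_mem hM.closed hM.inv U₀ hθ
  obtain ⟨V, -, hV⟩ := exists_late_mem (t := t) (x := act t U₀ θ) (z := θ) (by
    intro m N
    obtain ⟨n, hn⟩ := hM.dense _ (inv_sh hM.inv N hw) θ hθ m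
    refine ⟨n + N, by omega, ?_⟩
    rw [sh_add]
    exact hn)
  obtain ⟨U, hU, hUx, hUθ, -⟩ := exists_idem hM.closed hM.inv x {θ}
    ⟨V + U₀, fun N => by
      rw [Ultrafilter.eventually_add]
      filter_upwards with m
      filter_upwards [hU₀ N] with m' hm'
      omega, by
      rw [act_add, hx₀]
      exact act_mem hM.closed hM.inv V hz, fun θ' hθ' => by
      rw [Set.mem_singleton_iff] at hθ'
      rw [hθ', act_add, hV]⟩
  have h0 : Gd t x M {{θ}} (0, 0) := by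
    refine Gd_zero x M {{θ}} ?_ U hU hUx ?_
    · intro Θ hΘ
      rw [Set.mem_singleton_iff] at hΘ
      rw [hΘ]
      exact Set.finite_singleton θ
    · intro Θ hΘ θ' hθ'
      rw [Set.mem_singleton_iff] at hΘ
      rw [hΘ] at hθ'
      exact hUθ θ' hθ'
  have hdir : ∀ f : Fin k → Set (ℕ → Fin k), (∀ v, f v ∈ ({{θ}} : Set (Set (ℕ → Fin k)))) →
      ∃ Θ ∈ ({{θ}} : Set (Set (ℕ → Fin k))), ∀ v, f v ⊆ Θ := fun f hf =>
    ⟨{θ}, rfl, fun v => by
      have := hf v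
      rw [Set.mem_singleton_iff] at this
      rw [this]⟩
  obtain ⟨y, hyL, hy⟩ := exists_path' x hdir (LP_Gd_one hLM ht hx hθL) h0
  have hne : ({{θ}} : Set (Set (ℕ → Fin k))).Nonempty := Set.singleton_nonempty _
  have hyM : y ∈ M := Gd_mem hM.closed hne hy
  refine ⟨y, hyM, ?_, hyL⟩
  -- the limit ultrafilter
  obtain ⟨W, hW, hWP⟩ := exists_late
    (fun m n => Ag m (sh t n x) y ∧ Ag m (sh t n θ) θ)
    (fun m m' hm n h => ⟨h.1.mono hm, h.2.mono hm⟩) (by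
      intro m
      obtain ⟨n, h1, h2, -, h3⟩ := hy m m {θ} rfl
      exact ⟨n, h1, mem_cy_pc.1 h2, h3 θ rfl⟩)
  have hy' : act t W y ∈ M := act_mem hM.closed hM.inv W hyM
  obtain ⟨A, i1, i2, i3, i4, g, π, hπc, hπe, hπp⟩ := hr
  have hπn : ∀ n, ∀ z ∈ M, π (sh t n z) = π z + n • g := by
    intro n z hz
    induction n with
    | zero => rw [sh_zero, zero_smul, add_zero]
    | succ n ih =>
      rw [add_comm n 1, sh_add, hπe _ (inv_sh hM.inv n hz), ih, add_smul, one_smul, add_assoc,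
        add_comm (n • g)]
  have htd : ∀ z ∈ M, Tendsto (fun n => π (sh t n z)) W (𝓝 (π (act t W z))) := by
    intro z hz
    have h1 : Tendsto (fun n => sh t n z) W (𝓝[M] (act t W z)) :=
      tendsto_nhdsWithin_iff.2 ⟨tendsto_of_ag (act_ag W z),
        Eventually.of_forall fun n => inv_sh hM.inv n hz⟩
    exact (hπc _ (act_mem hM.closed hM.inv W hz)).tendsto.comp h1
  have hθW : act t W θ = θ := act_eq fun m => (hWP m).mono fun n h => h.2
  have hg : Tendsto (fun n : ℕ => n • g) W (𝓝 0) := by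
    have h1 := (htd θ hθ).sub_const (π θ)
    rw [hθW, sub_self] at h1
    refine h1.congr fun n => ?_
    rw [hπn n θ hθ, add_sub_cancel_left]
  have hπy : π (act t W y) = π y := by
    have h1 : Tendsto (fun n => π (sh t n y)) W (𝓝 (π y + 0)) := by
      refine (hg.const_add (π y)).congr fun n => ?_
      rw [hπn n y hyM]
    rw [add_zero] at h1
    exact tendsto_nhds_unique (htd y hyM) h1
  have hprox := hπp y hyM _ hy' hπy.symm
  intro m N
  obtain ⟨j, hj, h1⟩ := hprox m N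
  obtain ⟨K, hK⟩ := exists_mod1 (k := k) t m j
  obtain ⟨n, h2, h3⟩ := ((hWP K).and (act_ag (t := t) W y K)).exists
  refine ⟨j + n, by omega, ?_⟩
  rw [sh_add, sh_add]
  exact ((hK _ _ h2.1).trans h1).trans (hK _ _ h3).symm

/-! ### weakly mixing sets -/

/-- transition times -/
def TT (t : ℕ → ℕ) (M : Set (ℕ → Fin k)) (a b : ℕ → Fin k) (m : ℕ) : Set ℕ :=
  {n | ∃ w ∈ M, Ag m w a ∧ Ag m (sh t n w) b}

theorem TT_mono {M : Set (ℕ → Fin k)} {a b : ℕ → Fin k} {m m' : ℕ} (h : m ≤ m') :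
    TT t M a b m' ⊆ TT t M a b m := fun _ ⟨w, hw, h1, h2⟩ => ⟨w, hw, h1.mono h, h2.mono h⟩

theorem TT_inter {M : Set (ℕ → Fin k)} (hinv : ∀ z ∈ M, sh t 1 z ∈ M) (hwm : WMOn t M)
    {a b c d : ℕ → Fin k} (ha : a ∈ M) (hb : b ∈ M) (hc : c ∈ M) (hd : d ∈ M) (m : ℕ) :
    ∃ a' ∈ M, ∃ b' ∈ M, ∃ m' ≥ m, TT t M a' b' m' ⊆ TT t M a b m ∩ TT t M c d m := by
  obtain ⟨n₀, ⟨w₁, hw₁, h1, h2⟩, w₂, hw₂, h3, h4⟩ := hwm a ha c hc b hb d hd m
  obtain ⟨K, hK⟩ := exists_mod1 (k := k) t m n₀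
  refine ⟨w₁, hw₁, w₂, hw₂, max m K, le_max_left _ _, ?_⟩
  rintro n ⟨w, hw, h5, h6⟩
  refine ⟨⟨w, hw, (h5.mono (le_max_left _ _)).trans h1, (h6.mono (le_max_left _ _)).trans h3⟩,
    sh t n₀ w, inv_sh hinv n₀ hw, (hK _ _ (h5.mono (le_max_right _ _))).trans h2, ?_⟩
  rw [← sh_add, add_comm, sh_add]
  exact (hK _ _ (h6.mono (le_max_right _ _))).trans h4

theorem TT_all {M : Set (ℕ → Fin k)} (hinv : ∀ z ∈ M, sh t 1 z ∈ M) (hwm : WMOn t M)
    {a : ℕ → Fin k} (ha : a ∈ M) (m : ℕ) :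
    ∃ a' ∈ M, ∃ b' ∈ M, ∃ m', ∀ b ∈ M, TT t M a' b' m' ⊆ TT t M a b m := by
  have h1 : ∀ S, ∃ a' ∈ M, ∃ b' ∈ M, ∃ m', ∀ b ∈ M, pc b m < S →
      TT t M a' b' m' ⊆ TT t M a b m := by
    intro S
    induction S with
    | zero => exact ⟨a, ha, a, ha, m, fun b _ h => absurd h (Nat.not_lt_zero _)⟩
    | succ S ih =>
      obtain ⟨a', ha', b', hb', m', h⟩ := ih
      by_cases hS : ∃ b ∈ M, pc b m = S
      · obtain ⟨b₀, hb₀, hbS⟩ := hS
        obtain ⟨a'', ha'', b'', hb'', m'', -, h2⟩ := TT_inter hinv hwm ha' hb' ha hb₀ (max m m')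
        refine ⟨a'', ha'', b'', hb'', m'', fun b hb hlt => ?_⟩
        rcases Nat.lt_succ_iff_lt_or_eq.1 hlt with h3 | h3
        · exact (fun n hn => h b hb h3 (TT_mono (le_max_right _ _) (h2 hn).1))
        · intro n hn
          obtain ⟨w, hw, h4, h5⟩ := TT_mono (le_max_left m m') (h2 hn).2
          refine ⟨w, hw, h4, h5.trans ?_⟩
          have h6 : b ∈ (cy m (pc b₀ m) : Set (ℕ → Fin k)) := by
            rw [hbS, ← h3]
            exact mem_cy_pc.2 (Ag.refl _ _)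
          exact (mem_cy_pc.1 h6).symm
      · refine ⟨a', ha', b', hb', m', fun b hb hlt => ?_⟩
        rcases Nat.lt_succ_iff_lt_or_eq.1 hlt with h3 | h3
        · exact h b hb h3
        · exact absurd ⟨b, hb, h3⟩ hS
  obtain ⟨a', ha', b', hb', m', h⟩ := h1 (k ^ m)
  exact ⟨a', ha', b', hb', m', fun b hb => h b hb (pc_lt b m)⟩

theorem wm_dense {M : Set (ℕ → Fin k)} (hM : MinimalSet t M) (hwm : WMOn t M) {x : ℕ → Fin k}
    (hl : ∀ z ∈ M, ∀ m N, ∃ n ≥ N, Ag m (sh t n x) z)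
    (hsyn : ∀ z ∈ M, ∀ b ∈ M, ∀ m, ∃ L, ∀ n, ∃ l < L, Ag m (sh t (n + l) z) b)
    {a : ℕ → Fin k} (ha : a ∈ M) (m : ℕ) :
    ∃ w ∈ M, Ag m w a ∧ ∃ n ≥ m, Ag m (sh t n x) (sh t n w) := by
  obtain ⟨a', ha', b', hb', m', h⟩ := TT_all hM.inv hwm ha m
  obtain ⟨L, hL⟩ := hsyn a' ha' b' hb' m'
  obtain ⟨K, -, hK⟩ := exists_mod t m L
  obtain ⟨n, hn, h1⟩ := hl a' ha' K m
  obtain ⟨l, hlL, h2⟩ := hL n
  have h3 : Ag m (sh t (n + l) x) (sh t l a') := by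
    rw [add_comm, sh_add]
    exact h1.sh (hK l hlL)
  obtain ⟨w, hw, h4, h5⟩ := h (sh t l a') (inv_sh hM.inv l ha') ⟨a', ha', Ag.refl _ _, h2⟩
  exact ⟨w, hw, h4, n + l, by omega, h3.trans h5.symm⟩

/-- one step of the construction of a generic point -/
def St (t : ℕ → ℕ) (x : ℕ → Fin k) (M : Set (ℕ → Fin k)) (j m s m' s' n : ℕ) : Prop :=
  m < m' ∧ (∀ i < m, dg k s' i = dg k s i) ∧ LM M (m', s') ∧ j ≤ n ∧
    ∀ i < j, t^[n] i < m' ∧ ((sh t n x i : Fin k) : ℕ) = dg k s' (t^[n] i)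

theorem LP_St {α : Type} [Primcodable α] {M : Set (ℕ → Fin k)} (hLM : LP 2 (LM M))
    (ht : Computable t) {x : ℕ → Fin k} (hx : Lim 2 x) {j m s m' s' n : α → ℕ} (h₁ : Lim 2 j)
    (h₂ : Lim 2 m) (h₃ : Lim 2 s) (h₄ : Lim 2 m') (h₅ : Lim 2 s') (h₆ : Lim 2 n) :
    LP 2 (fun a => St t x M (j a) (m a) (s a) (m' a) (s' a) (n a)) := by
  have up : ∀ {β : Type} [Primcodable β] {f : β → ℕ}, Lim 2 f → Lim 2 (fun q : β × ℕ => f q.1) :=
    fun h => h.comp_left Computable.fst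
  have z : ∀ {β : Type} [Primcodable β], Lim 2 (fun q : β × ℕ => q.2) :=
    Lim.of_computable 2 Computable.snd
  refine (LP.lt h₂ h₄).and (LP.and ?_ ((hLM.comp (h₄.pair h₅)).and ((LP.le h₁ h₆).and ?_)))
  · exact LP.ball (P := fun q : α × ℕ => dg k (s' q.1) q.2 = dg k (s q.1) q.2)
      (LP.eq (Lim.dg (up h₅) z) (Lim.dg (up h₃) z)) h₂
  · exact LP.ball (P := fun q : α × ℕ => t^[n q.1] q.2 < m' q.1 ∧
      ((sh t (n q.1) x q.2 : Fin k) : ℕ) = dg k (s' q.1) (t^[n q.1] q.2))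
      ((LP.lt (Lim.iter ht (up h₆) z) (up h₄)).and (LP.eq (Lim.sh ht hx (up h₆) z)
        (Lim.dg (up h₅) (Lim.iter ht (up h₆) z)))) h₁

/-- the weakly mixing case -/
theorem case_wm (ht : Computable t) {x : ℕ → Fin k} (hx : Computable x)
    {M : Set (ℕ → Fin k)} (hM : MinimalSet t M) (hLM : LP 2 (LM M))
    (hl : ∀ z ∈ M, ∀ m N, ∃ n ≥ N, Ag m (sh t n x) z)
    (hsyn : ∀ z ∈ M, ∀ b ∈ M, ∀ m, ∃ L, ∀ n, ∃ l < L, Ag m (sh t (n + l) z) b)
    (hwm : WMOn t M) : ∃ y ∈ M, Prox t x y ∧ Lim 2 y := by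
  have hk := pos_of_point x
  have hstep : ∀ j m s, LM M (m, s) → ∃ q : ℕ,
      St t x M j m s q.unpair.1 q.unpair.2.unpair.1 q.unpair.2.unpair.2 := by
    rintro j m s ⟨a, ha, has⟩
    obtain ⟨w, hw, h1, n, h2, h3⟩ := wm_dense hM hwm hl hsyn ha (max m j)
    obtain ⟨K, hK1, hK2⟩ := exists_mod t (max (m + 1) j) (n + 1)
    refine ⟨Nat.pair K (Nat.pair (pc w K) n), ?_⟩
    rw [Nat.unpair_pair, Nat.unpair_pair]
    have hmK : m < K := lt_of_lt_of_le (Nat.lt_succ_self m) ((le_max_left _ _).trans hK1)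
    refine ⟨hmK, fun i hi => ?_, ⟨w, hw, mem_cy_pc.2 (Ag.refl _ _)⟩,
      (le_max_right _ _).trans h2, fun i hi => ⟨?_, ?_⟩⟩
    · rw [dg_pc w (hi.trans hmK), h1 i (lt_of_lt_of_le hi (le_max_left _ _))]
      exact has i hi
    · exact hK2 n (Nat.lt_succ_self n) i (lt_of_lt_of_le hi (le_max_right _ _))
    · rw [dg_pc w (hK2 n (Nat.lt_succ_self n) i (lt_of_lt_of_le hi (le_max_right _ _))),
        h3 i (lt_of_lt_of_le hi (le_max_right _ _))]
      rfl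
  -- the step function
  obtain ⟨P, hP⟩ : ∃ P : (ℕ × ℕ × ℕ) × ℕ → Prop, P = fun q => LM M (q.1.2.1, q.1.2.2) →
      St t x M q.1.1 q.1.2.1 q.1.2.2 q.2.unpair.1 q.2.unpair.2.unpair.1
        q.2.unpair.2.unpair.2 := ⟨_, rfl⟩
  have hPex : ∀ a, ∃ q, P (a, q) := by
    rintro ⟨j, m, s⟩
    by_cases h : LM M (m, s)
    · obtain ⟨q, hq⟩ := hstep j m s h
      exact ⟨q, by rw [hP]; exact fun _ => hq⟩
    · exact ⟨0, by rw [hP]; exact fun h' => absurd h' h⟩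
  have hPL : LP 2 P := by
    have c0 : Lim 2 (fun q : (ℕ × ℕ × ℕ) × ℕ => q.1.1) :=
      Lim.of_computable 2 (Computable.fst.comp Computable.fst)
    have c1 : Lim 2 (fun q : (ℕ × ℕ × ℕ) × ℕ => q.1.2.1) :=
      Lim.of_computable 2 (Computable.fst.comp (Computable.snd.comp Computable.fst))
    have c2 : Lim 2 (fun q : (ℕ × ℕ × ℕ) × ℕ => q.1.2.2) :=
      Lim.of_computable 2 (Computable.snd.comp (Computable.snd.comp Computable.fst))
    have c3 : Lim 2 (fun q : (ℕ × ℕ × ℕ) × ℕ => q.2) := Lim.of_computable 2 Computable.snd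
    rw [hP]
    exact (hLM.comp (c1.pair c2)).imp (LP_St hLM ht (Lim.of_computable 2 hx) c0 c1 c2 c3.unpair₁
      c3.unpair₂.unpair₁ c3.unpair₂.unpair₂)
  classical
  obtain ⟨F, hF⟩ : ∃ F : ℕ × ℕ × ℕ → ℕ, ∀ a, P (a, F a) ∧ ∀ j < F a, ¬ P (a, j) :=
    ⟨fun a => Nat.find (hPex a), fun a => ⟨Nat.find_spec (hPex a), fun j hj =>
      Nat.find_min (hPex a) hj⟩⟩
  have hFL : Lim 2 F := Lim.find hPL F (fun a => (hF a).1) fun a => (hF a).2
  have hFs : ∀ j m s, LM M (m, s) → St t x M j m s (F (j, m, s)).unpair.1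
      (F (j, m, s)).unpair.2.unpair.1 (F (j, m, s)).unpair.2.unpair.2 := by
    intro j m s h
    have h1 := (hF (j, m, s)).1
    rw [hP] at h1
    exact h1 h
  -- the states
  obtain ⟨S, hS⟩ : ∃ S : ℕ → ℕ × ℕ, S = fun j => (Nat.rec (0, 0) (fun j r =>
      ((F (j, r.1, r.2)).unpair.1, (F (j, r.1, r.2)).unpair.2.unpair.1)) j : ℕ × ℕ) := ⟨_, rfl⟩
  have hS0 : S 0 = (0, 0) := by rw [hS]; rfl
  have hS1 : ∀ j, S (j + 1) = ((F (j, (S j).1, (S j).2)).unpair.1,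
      (F (j, (S j).1, (S j).2)).unpair.2.unpair.1) := by intro j; rw [hS]
  have hSL : Lim 2 S := by
    have c1 : Lim 2 (fun q : Unit × ℕ × ℕ × ℕ => (q.2.1, q.2.2.1, q.2.2.2)) :=
      Lim.of_computable 2 ((Computable.fst.comp Computable.snd).pair
        ((Computable.fst.comp (Computable.snd.comp Computable.snd)).pair
          (Computable.snd.comp (Computable.snd.comp Computable.snd))))
    have c2 := hFL.comp c1
    have h1 := Lim.rec (f := fun _ : Unit => ((0, 0) : ℕ × ℕ))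
      (h := fun q : Unit × ℕ × ℕ × ℕ => ((F (q.2.1, q.2.2.1, q.2.2.2)).unpair.1,
        (F (q.2.1, q.2.2.1, q.2.2.2)).unpair.2.unpair.1)) (Lim.const _)
      (c2.unpair₁.pair c2.unpair₂.unpair₁)
    have h2 := h1.comp ((Lim.const (α := ℕ) ()).pair Lim.id)
    rw [hS]
    exact h2
  have hSM : ∀ j, LM M (S j) := by
    intro j
    induction j with
    | zero =>
      obtain ⟨z, hz⟩ := hM.ne
      rw [hS0]
      exact ⟨z, hz, fun i hi => absurd hi (Nat.not_lt_zero i)⟩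
    | succ j ih =>
      have h1 := hFs j (S j).1 (S j).2 ih
      rw [hS1]
      exact h1.2.2.1
  have hSs : ∀ j, ∃ n, St t x M j (S j).1 (S j).2 (S (j + 1)).1 (S (j + 1)).2 n := by
    intro j
    refine ⟨(F (j, (S j).1, (S j).2)).unpair.2.unpair.2, ?_⟩
    rw [hS1]
    exact hFs j _ _ (hSM j)
  have hlen : ∀ j, j ≤ (S j).1 := by
    intro j
    induction j with
    | zero => exact Nat.zero_le _
    | succ j ih =>
      obtain ⟨n, h1, -⟩ := hSs j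
      omega
  have hcoh : ∀ j j', j ≤ j' → ∀ i < (S j).1, i < (S j').1 ∧
      dg k (S j').2 i = dg k (S j).2 i := by
    intro j j' hjj'
    induction j', hjj' using Nat.le_induction with
    | base => exact fun i hi => ⟨hi, rfl⟩
    | succ j' _ ih =>
      intro i hi
      obtain ⟨h1, h2⟩ := ih i hi
      obtain ⟨n, h3, h4, -⟩ := hSs j'
      exact ⟨h1.trans h3, (h4 i h1).trans h2⟩
  obtain ⟨y, hy⟩ : ∃ y : ℕ → Fin k, ∀ i, (y i : ℕ) = dg k (S (i + 1)).2 i :=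
    ⟨fun i => ⟨dg k (S (i + 1)).2 i, dg_lt hk _ _⟩, fun i => rfl⟩
  have hyS : ∀ j, ∀ i < (S j).1, (y i : ℕ) = dg k (S j).2 i := by
    intro j i hi
    rw [hy]
    rcases le_total (i + 1) j with h | h
    · exact (hcoh (i + 1) j h i (lt_of_lt_of_le (Nat.lt_succ_self i) (hlen _))).2.symm
    · exact (hcoh j (i + 1) h i hi).2
  have hyM : y ∈ M := by
    refine mem_of_ag hM.closed fun m => ?_
    obtain ⟨z, hz, h1⟩ := hSM m
    refine ⟨z, hz, fun i hi => Fin.ext ?_⟩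
    have h2 := lt_of_lt_of_le hi (hlen m)
    rw [hyS m i h2]
    exact h1 i h2
  refine ⟨y, hyM, fun m N => ?_, ?_⟩
  · obtain ⟨n, -, -, -, h1, h2⟩ := hSs (max m N)
    refine ⟨n, (le_max_right _ _).trans h1, fun i hi => Fin.ext ?_⟩
    obtain ⟨h3, h4⟩ := h2 i (lt_of_lt_of_le hi (le_max_left _ _))
    rw [h4]
    change _ = (y (t^[n] i) : ℕ)
    rw [hyS _ _ h3]
  · have h1 : Lim 2 (fun i => (y i : ℕ)) := by
      have h2 : (fun i => (y i : ℕ)) = fun i => dg k (S (i + 1)).2 i := funext hy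
      rw [h2]
      exact Lim.dg (hSL.comp (Lim.of_computable 2 Computable.succ)).snd Lim.id
    have h2 : Computable (fun m : ℕ => (⟨m % k, Nat.mod_lt _ hk⟩ : Fin k)) := by
      refine Primrec.to_comp ?_
      rw [← Primrec.fin_val_iff]
      exact Primrec.nat_mod.comp Primrec.id (Primrec.const k)
    have h3 := Lim.compc h2 h1
    have h4 : (fun a => (⟨(y a : ℕ) % k, Nat.mod_lt _ hk⟩ : Fin k)) = y := by
      funext a
      exact Fin.ext (Nat.mod_eq_of_lt (y a).2)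
    rw [h4] at h3
    exact h3

end

end Pool.Agent.Helper22.AEL
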