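import Pool.Agent.Helper22.AEL.Act

/-!
# Distal minimal sets and proximal extensions of rotations
-/

set_option autoImplicit false

namespace Pool.Agent.Helper22.AEL

open Filter Topology

attribute [local instance] Ultrafilter.add Ultrafilter.addSemigroup

section

variable {k : ℕ} {t : ℕ → ℕ}

/-- words of `M` -/
def LM (M : Set (ℕ → Fin k)) (p : ℕ × ℕ) : Prop := ∃ z ∈ M, z ∈ (cy p.1 p.2 : Set (ℕ → Fin k))

/-- good words: for all `m` and all `Θ` in the family `T` there are `n ≥ m` such that `T^n x` is in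
the cylinder, agrees with a point of `M` up to `m`, and `T^n θ` agrees with `θ` up to `m` -/
def Gd (t : ℕ → ℕ) (x : ℕ → Fin k) (M : Set (ℕ → Fin k)) (F : Set (Set (ℕ → Fin k)))
    (p : ℕ × ℕ) : Prop :=
  ∀ m, ∀ Θ ∈ F, ∃ n ≥ m, sh t n x ∈ (cy p.1 p.2 : Set (ℕ → Fin k)) ∧
    (∃ w ∈ M, Ag m (sh t n x) w) ∧ ∀ θ ∈ Θ, Ag m (sh t n θ) θ

theorem Gd_zero (x : ℕ → Fin k) (M : Set (ℕ → Fin k)) (F : Set (Set (ℕ → Fin k)))
    (hF : ∀ Θ ∈ F, Θ.Finite) (U : Ultrafilter ℕ) (hU : Late U) (hx : act t U x ∈ M)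
    (hfix : ∀ Θ ∈ F, ∀ θ ∈ Θ, act t U θ = θ) : Gd t x M F (0, 0) := by
  intro m Θ hΘ
  have h1 : ∀ᶠ n in (U : Filter ℕ), ∀ θ ∈ Θ, Ag m (sh t n θ) θ := by
    rw [Filter.eventually_all_finite (hF Θ hΘ)]
    intro θ hθ
    have h2 := act_ag (t := t) U θ m
    rwa [hfix Θ hΘ θ hθ] at h2
  obtain ⟨n, ⟨h2, h3⟩, h4⟩ := ((h1.and (act_ag (t := t) U x m)).and (hU m)).exists
  exact ⟨n, h4, fun i hi => absurd hi (Nat.not_lt_zero i), ⟨_, hx, h3⟩, h2⟩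

theorem Gd_succ (x : ℕ → Fin k) (M : Set (ℕ → Fin k)) (F : Set (Set (ℕ → Fin k)))
    (hF : ∀ f : Fin k → Set (ℕ → Fin k), (∀ v, f v ∈ F) → ∃ Θ ∈ F, ∀ v, f v ⊆ Θ)
    (m s : ℕ) (hs : s < k ^ m) (h : Gd t x M F (m, s)) :
    ∃ v < k, Gd t x M F (m + 1, s + v * k ^ m) := by
  by_contra hcon
  push Not at hcon
  have h1 : ∀ v : Fin k, ∃ m', ∃ Θ ∈ F, ∀ n ≥ m', sh t n x ∈
      (cy (m + 1) (s + v * k ^ m) : Set (ℕ → Fin k)) → (∃ w ∈ M, Ag m' (sh t n x) w) →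
      ∃ θ ∈ Θ, ¬ Ag m' (sh t n θ) θ := by
    intro v
    have h2 := hcon v v.2
    unfold Gd at h2
    push Not at h2
    obtain ⟨m', Θ, hΘ, h3⟩ := h2
    exact ⟨m', Θ, hΘ, fun n hn h4 h5 => h3 n hn h4 h5⟩
  choose m' f hf hn using h1
  obtain ⟨Θ, hΘ, hsub⟩ := hF f hf
  obtain ⟨n, hn1, hn2, ⟨w, hw, hn3⟩, hn4⟩ := h (Finset.univ.sup m' + (m + 1)) Θ hΘ
  obtain ⟨v, hv⟩ : ∃ v, v = sh t n x m := ⟨_, rfl⟩
  have hmv : m' v ≤ Finset.univ.sup m' + (m + 1) :=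
    (Finset.le_sup (f := m') (Finset.mem_univ v)).trans (Nat.le_add_right _ _)
  obtain ⟨θ, hθ, h6⟩ := hn v n (hmv.trans hn1) ((mem_cy_app hs v.2).2 ⟨hn2, by rw [hv]⟩)
    ⟨w, hw, hn3.mono hmv⟩
  exact h6 ((hn4 θ (hsub v hθ)).mono hmv)

theorem Gd_mem {x : ℕ → Fin k} {M : Set (ℕ → Fin k)} {F : Set (Set (ℕ → Fin k))}
    (hM : IsClosed M) (hF : F.Nonempty) {y : ℕ → Fin k} (h : ∀ m, Gd t x M F (m, pc y m)) :
    y ∈ M := by
  refine mem_of_ag hM fun m => ?_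
  obtain ⟨Θ, hΘ⟩ := hF
  obtain ⟨n, -, h1, ⟨w, hw, h2⟩, -⟩ := h m m Θ hΘ
  exact ⟨w, hw, h2.symm.trans (mem_cy_pc.1 h1)⟩

/-! ### complexity -/

section Comp

variable {α : Type} [Primcodable α]

theorem LP_near {M : Set (ℕ → Fin k)} (hLM : LP 2 (LM M)) (ht : Computable t) {x : ℕ → Fin k}
    (hx : Lim 2 x) {f g : α → ℕ} (hf : Lim 2 f) (hg : Lim 2 g) :
    LP 2 (fun a => ∃ w ∈ M, Ag (g a) (sh t (f a) x) w) := by
  have c : Lim 2 (fun q : α × ℕ => q.2) := Lim.of_computable 2 Computable.snd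
  have h1 : LP 2 (fun a => ∃ s < k ^ g a, sh t (f a) x ∈ (cy (g a) s : Set (ℕ → Fin k)) ∧
      LM M (g a, s)) :=
    LP.bex (P := fun q : α × ℕ => sh t (f q.1) x ∈ (cy (g q.1) q.2 : Set (ℕ → Fin k)) ∧
      LM M (g q.1, q.2)) ((LP.cy ht hx (hf.comp_left Computable.fst) (hg.comp_left Computable.fst)
        c).and (hLM.comp ((hg.comp_left Computable.fst).pair c))) (hg.pow)
  refine h1.congr fun a => ?_
  constructor
  · rintro ⟨w, hw, h⟩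
    exact ⟨pc w (g a), pc_lt w _, mem_cy_pc.2 h, w, hw, mem_cy_pc.2 (Ag.refl _ _)⟩
  · rintro ⟨s, -, h2, w, hw, h3⟩
    refine ⟨w, hw, fun i hi => Fin.ext ?_⟩
    rw [h2 i hi]
    exact (h3 i hi).symm

theorem LP_ag (ht : Computable t) {θ : ℕ → Fin k} (hθ : Lim 2 θ) {f g : α → ℕ} (hf : Lim 2 f)
    (hg : Lim 2 g) : LP 2 (fun a => Ag (g a) (sh t (f a) θ) θ) := by
  have h1 : LP 2 (fun a => ∀ i < g a, ((sh t (f a) θ i : Fin k) : ℕ) = (θ i : ℕ)) :=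
    LP.ball (P := fun q : α × ℕ => ((sh t (f q.1) θ q.2 : Fin k) : ℕ) = (θ q.2 : ℕ))
      (LP.eq (Lim.sh ht hθ (hf.comp_left Computable.fst) (Lim.of_computable 2 Computable.snd))
        (Lim.compc comp_val (hθ.comp (Lim.of_computable 2 Computable.snd)))) hg
  refine h1.congr fun a => ?_
  constructor
  · intro h i hi
    rw [h i hi]
  · intro h i hi
    exact Fin.ext (h i hi)

/-- one point -/
theorem LP_Gd_one {M : Set (ℕ → Fin k)} (hLM : LP 2 (LM M)) (ht : Computable t) {x : ℕ → Fin k}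
    (hx : Computable x) {θ : ℕ → Fin k} (hθ : Lim 2 θ) : LP 4 (Gd t x M {{θ}}) := by
  have hx2 : Lim 2 x := Lim.of_computable 2 hx
  have c1 : Lim 2 (fun q : ((ℕ × ℕ) × ℕ) × ℕ => q.1.2) :=
    Lim.of_computable 2 (Computable.snd.comp Computable.fst)
  have c2 : Lim 2 (fun q : ((ℕ × ℕ) × ℕ) × ℕ => q.2) := Lim.of_computable 2 Computable.snd
  have c3 : Lim 2 (fun q : ((ℕ × ℕ) × ℕ) × ℕ => q.1.1.1) :=
    Lim.of_computable 2 (Computable.fst.comp (Computable.fst.comp Computable.fst))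
  have c4 : Lim 2 (fun q : ((ℕ × ℕ) × ℕ) × ℕ => q.1.1.2) :=
    Lim.of_computable 2 (Computable.snd.comp (Computable.fst.comp Computable.fst))
  have h1 : LP 2 (fun q : ((ℕ × ℕ) × ℕ) × ℕ => q.1.2 ≤ q.2 ∧
      sh t q.2 x ∈ (cy q.1.1.1 q.1.1.2 : Set (ℕ → Fin k)) ∧
      (∃ w ∈ M, Ag q.1.2 (sh t q.2 x) w) ∧ Ag q.1.2 (sh t q.2 θ) θ) :=
    (LP.le c1 c2).and ((LP.cy ht hx2 c2 c3 c4).and ((LP_near hLM ht hx2 c2 c1).and
      (LP_ag ht hθ c2 c1)))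
  refine (h1.ex.all).congr fun p => ?_
  constructor
  · intro h m
    obtain ⟨n, h2, h3, h4, h5⟩ := h m {θ} rfl
    exact ⟨n, h2, h3, h4, h5 θ rfl⟩
  · intro h m Θ hΘ
    rw [Set.mem_singleton_iff] at hΘ
    obtain ⟨n, h2, h3, h4, h5⟩ := h m
    refine ⟨n, h2, h3, h4, fun θ' hθ' => ?_⟩
    rw [hΘ, Set.mem_singleton_iff] at hθ'
    rw [hθ']
    exact h5

/-- the matrix for finite sets of points of `M` -/
def Mat (t : ℕ → ℕ) (x : ℕ → Fin k) (M : Set (ℕ → Fin k)) (m₀ s₀ m r N K : ℕ) : Prop :=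
  m ≤ K ∧ (∀ n < N, ∀ j < m, t^[n] j < K) ∧
    ∀ c < k ^ (r * K), (∀ i < r, ∃ s < k ^ K, (∀ j < K, dg k s j = dg k c (i * K + j)) ∧
      LM M (K, s)) → ∃ n < N, m ≤ n ∧ sh t n x ∈ (cy m₀ s₀ : Set (ℕ → Fin k)) ∧
        (∃ w ∈ M, Ag m (sh t n x) w) ∧
        ∀ i < r, ∀ j < m, dg k c (i * K + t^[n] j) = dg k c (i * K + j)

theorem LP_Mat {M : Set (ℕ → Fin k)} (hLM : LP 2 (LM M)) (ht : Computable t) {x : ℕ → Fin k}
    (hx : Lim 2 x) {m₀ s₀ m r N K : α → ℕ} (h₁ : Lim 2 m₀) (h₂ : Lim 2 s₀) (h₃ : Lim 2 m)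
    (h₄ : Lim 2 r) (h₅ : Lim 2 N) (h₆ : Lim 2 K) :
    LP 2 (fun a => Mat t x M (m₀ a) (s₀ a) (m a) (r a) (N a) (K a)) := by
  have up : ∀ {β : Type} [Primcodable β] {f : β → ℕ}, Lim 2 f → Lim 2 (fun q : β × ℕ => f q.1) :=
    fun h => h.comp_left Computable.fst
  have z : ∀ {β : Type} [Primcodable β], Lim 2 (fun q : β × ℕ => q.2) :=
    Lim.of_computable 2 Computable.snd
  refine (LP.le h₃ h₆).and (LP.and ?_ ?_)
  · refine LP.ball (P := fun q : α × ℕ => ∀ j < m q.1, t^[q.2] j < K q.1) ?_ h₅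
    refine LP.ball (P := fun q : (α × ℕ) × ℕ => t^[q.1.2] q.2 < K q.1.1) ?_ (up h₃)
    exact LP.lt (Lim.iter ht (up z) z) (up (up h₆))
  · refine LP.ball (P := fun q : α × ℕ => (∀ i < r q.1, ∃ s < k ^ K q.1,
      (∀ j < K q.1, dg k s j = dg k q.2 (i * K q.1 + j)) ∧ LM M (K q.1, s)) →
      ∃ n < N q.1, m q.1 ≤ n ∧ sh t n x ∈ (cy (m₀ q.1) (s₀ q.1) : Set (ℕ → Fin k)) ∧
        (∃ w ∈ M, Ag (m q.1) (sh t n x) w) ∧ ∀ i < r q.1, ∀ j < m q.1,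
          dg k q.2 (i * K q.1 + t^[n] j) = dg k q.2 (i * K q.1 + j)) ?_ ((h₄.mul h₆).pow)
    refine LP.imp ?_ ?_
    · refine LP.ball (P := fun q : (α × ℕ) × ℕ => ∃ s < k ^ K q.1.1,
        (∀ j < K q.1.1, dg k s j = dg k q.1.2 (q.2 * K q.1.1 + j)) ∧ LM M (K q.1.1, s)) ?_ (up h₄)
      refine LP.bex (P := fun q : ((α × ℕ) × ℕ) × ℕ =>
        (∀ j < K q.1.1.1, dg k q.2 j = dg k q.1.1.2 (q.1.2 * K q.1.1.1 + j)) ∧
          LM M (K q.1.1.1, q.2)) ?_ (up (up h₆)).pow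
      refine LP.and ?_ (hLM.comp ((up (up (up h₆))).pair z))
      refine LP.ball (P := fun q : (((α × ℕ) × ℕ) × ℕ) × ℕ =>
        dg k q.1.2 q.2 = dg k q.1.1.1.2 (q.1.1.2 * K q.1.1.1.1 + q.2)) ?_ (up (up (up h₆)))
      exact LP.eq (Lim.dg (up z) z) (Lim.dg (up (up (up z)))
        (((up (up z)).mul (up (up (up (up h₆))))).add z))
    · refine LP.bex (P := fun q : (α × ℕ) × ℕ => m q.1.1 ≤ q.2 ∧
        sh t q.2 x ∈ (cy (m₀ q.1.1) (s₀ q.1.1) : Set (ℕ → Fin k)) ∧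
        (∃ w ∈ M, Ag (m q.1.1) (sh t q.2 x) w) ∧ ∀ i < r q.1.1, ∀ j < m q.1.1,
          dg k q.1.2 (i * K q.1.1 + t^[q.2] j) = dg k q.1.2 (i * K q.1.1 + j)) ?_ (up h₅)
      refine (LP.le (up (up h₃)) z).and ((LP.cy ht hx z (up (up h₁)) (up (up h₂))).and
        ((LP_near hLM ht hx z (up (up h₃))).and ?_))
      refine LP.ball (P := fun q : ((α × ℕ) × ℕ) × ℕ => ∀ j < m q.1.1.1,
        dg k q.1.1.2 (q.2 * K q.1.1.1 + t^[q.1.2] j) = dg k q.1.1.2 (q.2 * K q.1.1.1 + j)) ?_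
        (up (up h₄))
      refine LP.ball (P := fun q : (((α × ℕ) × ℕ) × ℕ) × ℕ =>
        dg k q.1.1.1.2 (q.1.2 * K q.1.1.1.1 + t^[q.1.1.2] q.2) =
          dg k q.1.1.1.2 (q.1.2 * K q.1.1.1.1 + q.2)) ?_ (up (up (up h₃)))
      have e1 : Lim 2 (fun q : (((α × ℕ) × ℕ) × ℕ) × ℕ => q.1.1.1.2) := up (up (up z))
      have e2 : Lim 2 (fun q : (((α × ℕ) × ℕ) × ℕ) × ℕ => q.1.2 * K q.1.1.1.1) :=
        (up z).mul (up (up (up (up h₆))))
      exact LP.eq (Lim.dg e1 (e2.add (Lim.iter ht (up (up z)) z))) (Lim.dg e1 (e2.add z))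

end Comp

/-- compactness -/
theorem Gd_iff_Mat (x : ℕ → Fin k) {M : Set (ℕ → Fin k)} (hM : IsClosed M) (p : ℕ × ℕ) :
    Gd t x M {Θ | Θ.Finite ∧ Θ ⊆ M} p ↔
      ∀ a : ℕ, ∃ q : ℕ, Mat t x M p.1 p.2 a.unpair.1 a.unpair.2 q.unpair.1 q.unpair.2 := by
  constructor
  · intro h a
    generalize a.unpair.1 = m
    generalize a.unpair.2 = r
    -- compactness
    have hcomp : IsCompact {Θ : Fin r → ℕ → Fin k | ∀ i, Θ i ∈ M} := by
      refine IsClosed.isCompact ?_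
      have h1 : {Θ : Fin r → ℕ → Fin k | ∀ i, Θ i ∈ M} =
          ⋂ i, (fun Θ : Fin r → ℕ → Fin k => Θ i) ⁻¹' M := by
        ext Θ
        simp only [Set.mem_iInter]
        rfl
      rw [h1]
      exact isClosed_iInter fun i => hM.preimage (continuous_apply i)
    obtain ⟨V, hV⟩ : ∃ V : ℕ → Set (Fin r → ℕ → Fin k), V = fun N => {Θ | ∃ n < N, m ≤ n ∧
        sh t n x ∈ (cy p.1 p.2 : Set (ℕ → Fin k)) ∧ (∃ w ∈ M, Ag m (sh t n x) w) ∧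
        ∀ i, ∀ j < m, Θ i (t^[n] j) = Θ i j} := ⟨_, rfl⟩
    have hVo : ∀ N, IsOpen (V N) := by
      intro N
      have h1 : V N =
          ⋃ n, ⋃ (_ : n < N ∧ m ≤ n ∧ sh t n x ∈ (cy p.1 p.2 : Set (ℕ → Fin k)) ∧
            (∃ w ∈ M, Ag m (sh t n x) w)), ⋂ i : Fin r,
              {Θ : Fin r → ℕ → Fin k | ∀ j < m, Θ i (t^[n] j) = Θ i j} := by
        ext Θ
        rw [hV]
        simp only [Set.mem_iUnion, Set.mem_iInter, exists_prop]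
        constructor
        · rintro ⟨n, h1, h2, h3, h4, h5⟩
          exact ⟨n, ⟨h1, h2, h3, h4⟩, h5⟩
        · rintro ⟨n, ⟨h1, h2, h3, h4⟩, h5⟩
          exact ⟨n, h1, h2, h3, h4, h5⟩
      rw [h1]
      refine isOpen_iUnion fun n => isOpen_iUnion fun _ => isOpen_iInter_of_finite fun i => ?_
      refine isOpen_ball (P := fun j (Θ : Fin r → ℕ → Fin k) => Θ i (t^[n] j) = Θ i j) m fun j => ?_
      exact isOpen_eq ((continuous_apply _).comp (continuous_apply i))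
        ((continuous_apply _).comp (continuous_apply i))
    have hVc : {Θ : Fin r → ℕ → Fin k | ∀ i, Θ i ∈ M} ⊆ ⋃ N, V N := by
      intro Θ hΘ
      obtain ⟨n, h1, h2, h3, h4⟩ := h m (Set.range Θ)
        ⟨Set.finite_range Θ, by rintro _ ⟨i, rfl⟩; exact hΘ i⟩
      rw [Set.mem_iUnion, hV]
      exact ⟨n + 1, n, Nat.lt_succ_self n, h1, h2, h3, fun i j hj => h4 _ ⟨i, rfl⟩ j hj⟩
    have hVd : Directed (· ⊆ ·) V := by
      refine Monotone.directed_le fun N N' hNN' => ?_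
      rw [hV]
      rintro Θ ⟨n, h1, h2⟩
      exact ⟨n, lt_of_lt_of_le h1 hNN', h2⟩
    obtain ⟨N, hN⟩ := hcomp.elim_directed_cover V hVo hVc hVd
    obtain ⟨K, hK1, hK2⟩ := exists_mod t m N
    refine ⟨Nat.pair N K, ?_⟩
    rw [Nat.unpair_pair]
    refine ⟨hK1, hK2, fun c hc hc' => ?_⟩
    have h2 : ∀ i : Fin r, ∃ z ∈ M, ∀ j < K, (z j : ℕ) = dg k c (i * K + j) := by
      intro i
      obtain ⟨s, -, h3, z, hz, h4⟩ := hc' i i.2
      refine ⟨z, hz, fun j hj => ?_⟩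
      rw [← h3 j hj]
      exact h4 j hj
    choose z hz hzd using h2
    have h6 : z ∈ V N := hN hz
    rw [hV] at h6
    obtain ⟨n, hn, hmn, h3, h4, h5⟩ := h6
    refine ⟨n, hn, hmn, h3, h4, fun i hi j hj => ?_⟩
    rw [← hzd ⟨i, hi⟩ _ (hK2 n hn j hj), ← hzd ⟨i, hi⟩ j (lt_of_lt_of_le hj hK1)]
    exact congrArg Fin.val (h5 ⟨i, hi⟩ j hj)
  · intro h m Θ hΘ
    obtain ⟨r, f, hf⟩ := hΘ.1.fin_embedding
    obtain ⟨q, hq⟩ := h (Nat.pair m r)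
    rw [Nat.unpair_pair] at hq
    obtain ⟨h1, h2, h3⟩ := hq
    generalize q.unpair.1 = N at h1 h2 h3
    generalize q.unpair.2 = K at h1 h2 h3
    obtain ⟨W, hW⟩ : ∃ W : ℕ → Fin k, W = fun a =>
        if h : a / K < r then f ⟨a / K, h⟩ (a % K) else x 0 := ⟨_, rfl⟩
    have hWij : ∀ i (hi : i < r), ∀ j < K, W (i * K + j) = f ⟨i, hi⟩ j := by
      intro i hi j hj
      have hK : 0 < K := by omega
      have e1 : (i * K + j) / K = i := by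
        rw [mul_comm, Nat.mul_add_div hK, Nat.div_eq_of_lt hj, add_zero]
      have e2 : (i * K + j) % K = j := by
        rw [mul_comm, Nat.mul_add_mod, Nat.mod_eq_of_lt hj]
      rw [hW]
      change (if h : (i * K + j) / K < r then f ⟨(i * K + j) / K, h⟩ ((i * K + j) % K) else x 0) = _
      rw [dif_pos (by rw [e1]; exact hi)]
      have e3 : (⟨(i * K + j) / K, by rw [e1]; exact hi⟩ : Fin r) = ⟨i, hi⟩ := Fin.ext e1
      rw [e3, e2]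
    have hdg : ∀ i (hi : i < r), ∀ j < K, dg k (pc W (r * K)) (i * K + j) = f ⟨i, hi⟩ j := by
      intro i hi j hj
      rw [dg_pc W, hWij i hi j hj]
      calc i * K + j < i * K + K := by omega
        _ = (i + 1) * K := by ring
        _ ≤ r * K := Nat.mul_le_mul_right _ hi
    obtain ⟨n, hn, hmn, h4, h5, h6⟩ := h3 (pc W (r * K)) (pc_lt W _) (fun i hi => by
      refine ⟨pc (f ⟨i, hi⟩) K, pc_lt _ _, fun j hj => ?_, f ⟨i, hi⟩, ?_,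
        mem_cy_pc.2 (Ag.refl _ _)⟩
      · rw [hdg i hi j hj, dg_pc _ hj]
      · exact hΘ.2 (hf ▸ Set.mem_range_self _))
    refine ⟨n, hmn, h4, h5, fun θ hθ => ?_⟩
    rw [← hf] at hθ
    obtain ⟨i, rfl⟩ := hθ
    intro j hj
    apply Fin.ext
    have h7 := h6 i i.2 j hj
    rw [hdg i i.2 _ (h2 n hn j hj), hdg i i.2 j (lt_of_lt_of_le hj h1)] at h7
    exact h7

theorem LP_Gd_fin {M : Set (ℕ → Fin k)} (hM : IsClosed M) (hLM : LP 2 (LM M))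
    (ht : Computable t) {x : ℕ → Fin k} (hx : Computable x) :
    LP 4 (Gd t x M {Θ | Θ.Finite ∧ Θ ⊆ M}) := by
  have c1 : Lim 2 (fun q : ((ℕ × ℕ) × ℕ) × ℕ => q.1.2) :=
    Lim.of_computable 2 (Computable.snd.comp Computable.fst)
  have c2 : Lim 2 (fun q : ((ℕ × ℕ) × ℕ) × ℕ => q.2) := Lim.of_computable 2 Computable.snd
  have c3 : Lim 2 (fun q : ((ℕ × ℕ) × ℕ) × ℕ => q.1.1.1) :=
    Lim.of_computable 2 (Computable.fst.comp (Computable.fst.comp Computable.fst))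
  have c4 : Lim 2 (fun q : ((ℕ × ℕ) × ℕ) × ℕ => q.1.1.2) :=
    Lim.of_computable 2 (Computable.snd.comp (Computable.fst.comp Computable.fst))
  have h1 := LP_Mat (α := ((ℕ × ℕ) × ℕ) × ℕ) hLM ht (Lim.of_computable 2 hx) c3 c4 c1.unpair₁
    c1.unpair₂ c2.unpair₁ c2.unpair₂
  exact (h1.ex.all).congr fun p => Gd_iff_Mat x hM p

end

end Pool.Agent.Helper22.AEL
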