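import Pool.Agent.Helper22.AEL.Tower

/-!
# From solutions of the Auslander-Ellis theorem to solutions of Hindman's theorem
-/

set_option autoImplicit false

namespace Pool.Agent.Helper22.AEL

section

variable {k : ℕ} {t : ℕ → ℕ}

/-- `x` and the uniformly recurrent point `y`, proximal to `x`, return together to `y` -/
theorem strong_prox {x y : ℕ → Fin k} (hy : UR t y) (hxy : Prox t x y) (m N : ℕ) :
    ∃ n ≥ N, Ag m (sh t n x) y ∧ Ag m (sh t n y) y := by
  obtain ⟨L, hL⟩ := hy m
  obtain ⟨K, -, hK⟩ := exists_mod t m L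
  obtain ⟨n, hn, h1⟩ := hxy K N
  obtain ⟨j, hj, h2⟩ := hL n
  have h3 : Ag m (sh t (n + j) x) (sh t (n + j) y) := by
    rw [add_comm, sh_add, sh_add]
    exact h1.sh (hK j hj)
  exact ⟨n + j, by omega, h3.trans h2, h2⟩

theorem succ_iter (n i : ℕ) : Nat.succ^[n] i = i + n := by
  induction n with
  | zero => rfl
  | succ n ih => rw [Function.iterate_succ_apply', ih]; rfl

theorem succ_sh (n : ℕ) (u : ℕ → Fin k) (i : ℕ) : sh Nat.succ n u i = u (i + n) := by
  change u (Nat.succ^[n] i) = u (i + n)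
  rw [succ_iter]

/-- the choice of the next element -/
def GH (c y : ℕ → Fin k) (p : ℕ × ℕ) : Prop :=
  p.2 < p.1 ∧ ∀ i < p.2 + 1, c (i + p.1) = y i ∧ y (i + p.1) = y i

theorem LP_GH {n : ℕ} {c y : ℕ → Fin k} (hc : Lim n c) (hy : Lim n y) : LP n (GH c y) := by
  have e1 : Lim n (fun p : ℕ × ℕ => p.1) := Lim.of_computable n Computable.fst
  have e2 : Lim n (fun p : ℕ × ℕ => p.2) := Lim.of_computable n Computable.snd
  have d1 : Lim n (fun q : (ℕ × ℕ) × ℕ => q.1.1) :=
    Lim.of_computable n (Computable.fst.comp Computable.fst)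
  have d3 : Lim n (fun q : (ℕ × ℕ) × ℕ => q.2) := Lim.of_computable n Computable.snd
  refine (LP.lt e2 e1).and (LP.ball (P := fun q : (ℕ × ℕ) × ℕ =>
    c (q.2 + q.1.1) = y q.2 ∧ y (q.2 + q.1.1) = y q.2) ?_ (e2.add (Lim.const 1)))
  exact (LP.eq (hc.comp (d3.add d1)) (hy.comp d3)).and (LP.eq (hy.comp (d3.add d1)) (hy.comp d3))

/-- Hindman's theorem for `c` from a point `y` as in `strong_prox` -/
theorem hindman_of_point {n : ℕ} {c y : ℕ → Fin k} (hc : Lim n c) (hy : Lim n y)
    (hr : ∀ m N, ∃ n ≥ N, ∀ i < m, c (i + n) = y i ∧ y (i + n) = y i) :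
    ∃ H : Set ℕ, H.Infinite ∧ LP n (fun a => a ∈ H) ∧ (∀ a ∈ H, 0 < a) ∧
      ∀ F : Finset ℕ, F.Nonempty → (∀ a ∈ F, a ∈ H) → c (∑ a ∈ F, a) = y 0 := by
  classical
  obtain ⟨S, hS⟩ : ∃ S : ℕ → ℕ, S = fun m =>
      (Nat.rec 0 (fun j r => if GH c y (j, r) then r + j else r) m : ℕ) := ⟨_, rfl⟩
  have hS0 : S 0 = 0 := by rw [hS]; rfl
  have hS1 : ∀ m, S (m + 1) = if GH c y (m, S m) then S m + m else S m := by intro m; rw [hS]
  have hSL : Lim n S := by
    have c1 : Lim n (fun q : Unit × ℕ × ℕ => q.2.1) :=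
      Lim.of_computable n (Computable.fst.comp Computable.snd)
    have c2 : Lim n (fun q : Unit × ℕ × ℕ => q.2.2) :=
      Lim.of_computable n (Computable.snd.comp Computable.snd)
    have h1 := Lim.rec (f := fun _ : Unit => 0)
      (h := fun q : Unit × ℕ × ℕ => if GH c y (q.2.1, q.2.2) then q.2.2 + q.2.1 else q.2.2)
      (Lim.const 0) (Lim.ite ((LP_GH hc hy).comp (c1.pair c2)) (c2.add c1) c2)
    have h2 := h1.comp ((Lim.const (α := ℕ) ()).pair Lim.id)
    rw [hS]
    exact h2
  have hmono : ∀ m, S m ≤ S (m + 1) := by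
    intro m
    rw [hS1]
    split_ifs <;> omega
  have key : ∀ N, ∀ F : Finset ℕ, (∀ a ∈ F, GH c y (a, S a)) → (∀ a ∈ F, a < N) →
      ∑ a ∈ F, a ≤ S N ∧ y (∑ a ∈ F, a) = y 0 ∧ (F.Nonempty → c (∑ a ∈ F, a) = y 0) := by
    intro N
    induction N with
    | zero =>
      intro F _ hF
      have h1 : F = ∅ := Finset.eq_empty_of_forall_notMem fun a ha =>
        absurd (hF a ha) (Nat.not_lt_zero a)
      rw [h1, Finset.sum_empty]
      exact ⟨Nat.zero_le _, rfl, fun h => absurd h Finset.not_nonempty_empty⟩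
    | succ N ih =>
      intro F hG hF
      by_cases hN : N ∈ F
      · have h1 : ∑ a ∈ F, a = ∑ a ∈ F.erase N, a + N := (Finset.sum_erase_add F _ hN).symm
        obtain ⟨h2, h3, -⟩ := ih (F.erase N) (fun a ha => hG a (Finset.mem_of_mem_erase ha))
          (fun a ha => by
            have h4 := hF a (Finset.mem_of_mem_erase ha)
            have h5 := Finset.ne_of_mem_erase ha
            omega)
        have h4 := hG N hN
        have h5 := h4.2 (∑ a ∈ F.erase N, a) (Nat.lt_succ_of_le h2)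
        rw [h1, hS1, if_pos h4]
        exact ⟨by omega, h5.2.trans h3, fun _ => h5.1.trans h3⟩
      · obtain ⟨h2, h3, h4⟩ := ih F hG (fun a ha => by
          have h5 := hF a ha
          have h6 : a ≠ N := by
            rintro rfl
            exact hN ha
          omega)
        exact ⟨h2.trans (hmono N), h3, h4⟩
  refine ⟨{a | GH c y (a, S a)}, ?_, ?_, ?_, ?_⟩
  · intro hfin
    obtain ⟨B, hB⟩ := hfin.bddAbove
    have hst : ∀ m, S (B + 1 + m) = S (B + 1) := by
      intro m
      induction m with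
      | zero => rfl
      | succ m ih =>
        rw [← add_assoc, hS1, if_neg, ih]
        intro h
        have := hB h
        omega
    obtain ⟨n', hn', h⟩ := hr (S (B + 1) + 1) (B + 1 + S (B + 1) + 1)
    have h1 : S n' = S (B + 1) := by
      have := hst (n' - (B + 1))
      rwa [show B + 1 + (n' - (B + 1)) = n' by omega] at this
    have h2 : GH c y (n', S n') := by
      rw [h1]
      exact ⟨by change S (B + 1) < n'; omega, fun i hi => h i hi⟩
    have := hB h2
    omega
  · exact (LP_GH hc hy).comp (Lim.id.pair hSL)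
  · intro a ha
    exact lt_of_le_of_lt (Nat.zero_le _) ha.1
  · intro F hF hFH
    refine (key (F.sup id + 1) F hFH fun a ha => ?_).2.2 hF
    exact Nat.lt_succ_of_le (Finset.le_sup (f := id) ha)

end

end Pool.Agent.Helper22.AEL
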