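import Mathlib

/-!
# Iterated limits of computable functions

`Lim n f`: the function `f` is an `n`-fold iterated limit of computable functions.  By Shoenfield's
limit lemma this is the same as `f` computable in the `n`-th Turing jump of the empty set (not used
and not proved here).  Closure properties; predicates `LP n`.
-/

set_option autoImplicit false

namespace Pool.Agent.Helper22.AEL

/-- `n`-fold iterated limits of computable functions. -/
def Lim : ℕ → ∀ {α β : Type} [Primcodable α] [Primcodable β], (α → β) → Prop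
  | 0, _, _, _, _, f => Computable f
  | n + 1, α, β, _, _, f => ∃ g : α × ℕ → β, Lim n g ∧ ∀ a, ∃ s₀, ∀ s ≥ s₀, g (a, s) = f a

section

variable {α β γ δ : Type} [Primcodable α] [Primcodable β] [Primcodable γ] [Primcodable δ]

theorem Lim.of_computable (n : ℕ) {f : α → β} (hf : Computable f) : Lim n f := by
  induction n generalizing α with
  | zero => exact hf
  | succ n ih => exact ⟨fun p => f p.1, ih (hf.comp Computable.fst), fun a => ⟨0, fun s _ => rfl⟩⟩

private theorem lim_cp (n : ℕ) :
    (∀ {α β γ : Type} [Primcodable α] [Primcodable β] [Primcodable γ] {f : β → γ} {g : α → β},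
      Lim n f → Lim n g → Lim n (fun a => f (g a))) ∧
    (∀ {α β γ : Type} [Primcodable α] [Primcodable β] [Primcodable γ] {f : α → β} {g : α → γ},
      Lim n f → Lim n g → Lim n (fun a => (f a, g a))) := by
  induction n with
  | zero =>
    refine ⟨?_, ?_⟩
    · intro α β γ _ _ _ f g hf hg
      exact Computable.comp (f := f) (g := g) hf hg
    · intro α β γ _ _ _ f g hf hg
      exact Computable.pair (f := f) (g := g) hf hg
  | succ n ih =>
    obtain ⟨ihc, ihp⟩ := ih
    refine ⟨?_, ?_⟩
    · rintro α β γ _ _ _ f g ⟨f', hf', hf⟩ ⟨g', hg', hg⟩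
      refine ⟨fun p => f' (g' p, p.2), ihc hf' (ihp hg' (Lim.of_computable n Computable.snd)), ?_⟩
      intro a
      obtain ⟨s₀, h₀⟩ := hg a
      obtain ⟨s₁, h₁⟩ := hf (g a)
      refine ⟨max s₀ s₁, fun s hs => ?_⟩
      change f' (g' (a, s), s) = f (g a)
      rw [h₀ s (le_trans (le_max_left _ _) hs), h₁ s (le_trans (le_max_right _ _) hs)]
    · rintro α β γ _ _ _ f g ⟨f', hf', hf⟩ ⟨g', hg', hg⟩
      refine ⟨fun p => (f' p, g' p), ihp hf' hg', ?_⟩
      intro a
      obtain ⟨s₀, h₀⟩ := hf a
      obtain ⟨s₁, h₁⟩ := hg a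
      refine ⟨max s₀ s₁, fun s hs => ?_⟩
      change (f' (a, s), g' (a, s)) = (f a, g a)
      rw [h₀ s (le_trans (le_max_left _ _) hs), h₁ s (le_trans (le_max_right _ _) hs)]

theorem Lim.comp {n : ℕ} {f : β → γ} {g : α → β} (hf : Lim n f) (hg : Lim n g) :
    Lim n (fun a => f (g a)) := (lim_cp n).1 hf hg

theorem Lim.pair {n : ℕ} {f : α → β} {g : α → γ} (hf : Lim n f) (hg : Lim n g) :
    Lim n (fun a => (f a, g a)) := (lim_cp n).2 hf hg

theorem Lim.compc {n : ℕ} {f : β → γ} {g : α → β} (hf : Computable f) (hg : Lim n g) :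
    Lim n (fun a => f (g a)) := (Lim.of_computable n hf).comp hg

theorem Lim.comp_left {n : ℕ} {f : β → γ} {g : α → β} (hf : Lim n f) (hg : Computable g) :
    Lim n (fun a => f (g a)) := hf.comp (Lim.of_computable n hg)

theorem Lim.succ {n : ℕ} {f : α → β} (hf : Lim n f) : Lim (n + 1) f :=
  ⟨fun p => f p.1, hf.comp_left Computable.fst, fun a => ⟨0, fun s _ => rfl⟩⟩

theorem Lim.mono {n m : ℕ} (h : n ≤ m) {f : α → β} (hf : Lim n f) : Lim m f := by
  induction m, h using Nat.le_induction with
  | base => exact hf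
  | succ m _ ih => exact ih.succ

theorem Lim.id {n : ℕ} : Lim n (fun a : α => a) := Lim.of_computable n Computable.id
theorem Lim.const {n : ℕ} (b : β) : Lim n (fun _ : α => b) := Lim.of_computable n (Computable.const b)
theorem Lim.fst {n : ℕ} {f : α → β × γ} (hf : Lim n f) : Lim n (fun a => (f a).1) :=
  Lim.compc Computable.fst hf
theorem Lim.snd {n : ℕ} {f : α → β × γ} (hf : Lim n f) : Lim n (fun a => (f a).2) :=
  Lim.compc Computable.snd hf

theorem Lim.rec {n : ℕ} {f : α → β} {h : α × ℕ × β → β} (hf : Lim n f) (hh : Lim n h) :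
    Lim n (fun p : α × ℕ =>
      (Nat.rec (f p.1) (fun j r => h (p.1, j, r)) p.2 : β)) := by
  induction n generalizing α with
  | zero =>
    have h1 : Computable f := hf
    have h2 : Computable h := hh
    exact Computable.nat_rec (f := fun p : α × ℕ => p.2) (g := fun p : α × ℕ => f p.1)
      (h := fun (p : α × ℕ) (q : ℕ × β) => h (p.1, q.1, q.2)) Computable.snd
      (h1.comp Computable.fst)
      (h2.comp ((Computable.fst.comp Computable.fst).pair
        ((Computable.fst.comp Computable.snd).pair (Computable.snd.comp Computable.snd))))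
  | succ n ih =>
    obtain ⟨f', hf', hf⟩ := hf
    obtain ⟨h', hh', hh⟩ := hh
    have hR := ih (α := α × ℕ) (f := f') (h := fun p => h' ((p.1.1, p.2.1, p.2.2), p.1.2)) hf'
      (hh'.comp_left (((Computable.fst.comp Computable.fst).pair
        ((Computable.fst.comp Computable.snd).pair (Computable.snd.comp Computable.snd))).pair
        (Computable.snd.comp Computable.fst)))
    refine ⟨fun p => (Nat.rec (f' (p.1.1, p.2))
      (fun j r => h' ((p.1.1, j, r), p.2)) p.1.2 : β), ?_, ?_⟩
    · exact hR.comp_left (g := fun p : (α × ℕ) × ℕ => ((p.1.1, p.2), p.1.2))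
        (((Computable.fst.comp Computable.fst).pair Computable.snd).pair
          (Computable.snd.comp Computable.fst))
    · rintro ⟨a, j⟩
      induction j with
      | zero =>
        obtain ⟨s₀, h₀⟩ := hf a
        exact ⟨s₀, fun s hs => h₀ s hs⟩
      | succ j ihj =>
        obtain ⟨s₀, h₀⟩ := ihj
        obtain ⟨s₁, h₁⟩ := hh (a, j, Nat.rec (f a) (fun j r => h (a, j, r)) j)
        refine ⟨max s₀ s₁, fun s hs => ?_⟩
        have e₀ := h₀ s (le_trans (le_max_left _ _) hs)
        have e₁ := h₁ s (le_trans (le_max_right _ _) hs)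
        change h' ((a, j, Nat.rec (f' (a, s)) (fun j r => h' ((a, j, r), s)) j), s) =
          h (a, j, Nat.rec (f a) (fun j r => h (a, j, r)) j)
        rw [← e₁]
        congr 1
        have e₂ : (Nat.rec (f' (a, s)) (fun j r => h' ((a, j, r), s)) j : β) =
          Nat.rec (f a) (fun j r => h (a, j, r)) j := e₀
        rw [e₂]

/-- Predicates decided by `n`-fold limits. -/
def LP (n : ℕ) (P : α → Prop) : Prop := ∃ f : α → Bool, Lim n f ∧ ∀ a, P a ↔ f a = true

theorem LP.congr {n : ℕ} {P Q : α → Prop} (h : LP n P) (hPQ : ∀ a, Q a ↔ P a) : LP n Q := by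
  obtain ⟨f, hf, hP⟩ := h
  exact ⟨f, hf, fun a => (hPQ a).trans (hP a)⟩

theorem LP.mono {n m : ℕ} (h : n ≤ m) {P : α → Prop} (hP : LP n P) : LP m P := by
  obtain ⟨f, hf, hP⟩ := hP
  exact ⟨f, hf.mono h, hP⟩

theorem LP.comp {n : ℕ} {P : β → Prop} {g : α → β} (hP : LP n P) (hg : Lim n g) :
    LP n (fun a => P (g a)) := by
  obtain ⟨f, hf, hP⟩ := hP
  exact ⟨fun a => f (g a), hf.comp hg, fun a => hP _⟩

theorem LP.not {n : ℕ} {P : α → Prop} (hP : LP n P) : LP n (fun a => ¬ P a) := by
  obtain ⟨f, hf, hP⟩ := hP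
  refine ⟨fun a => !f a, Lim.compc Primrec.not.to_comp hf, fun a => ?_⟩
  beta_reduce
  rw [hP]
  simp

theorem LP.and {n : ℕ} {P Q : α → Prop} (hP : LP n P) (hQ : LP n Q) :
    LP n (fun a => P a ∧ Q a) := by
  obtain ⟨f, hf, hP⟩ := hP
  obtain ⟨g, hg, hQ⟩ := hQ
  refine ⟨fun a => f a && g a,
    Lim.compc (f := fun p : Bool × Bool => p.1 && p.2) Primrec.and.to_comp (hf.pair hg), fun a => ?_⟩
  beta_reduce
  rw [hP, hQ]
  simp

theorem LP.or {n : ℕ} {P Q : α → Prop} (hP : LP n P) (hQ : LP n Q) :
    LP n (fun a => P a ∨ Q a) :=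
  (hP.not.and hQ.not).not.congr fun a => by tauto

theorem LP.imp {n : ℕ} {P Q : α → Prop} (hP : LP n P) (hQ : LP n Q) :
    LP n (fun a => P a → Q a) :=
  (hP.and hQ.not).not.congr fun a => by tauto

theorem LP.iff {n : ℕ} {P Q : α → Prop} (hP : LP n P) (hQ : LP n Q) :
    LP n (fun a => P a ↔ Q a) :=
  ((hP.imp hQ).and (hQ.imp hP)).congr fun a => by tauto

theorem LP.eq {n : ℕ} [DecidableEq β] {f g : α → β} (hf : Lim n f) (hg : Lim n g) :
    LP n (fun a => f a = g a) := by
  have h1 : Computable (fun p : β × β => decide (p.1 = p.2)) := by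
    obtain ⟨D, h⟩ := (Primrec.eq (α := β))
    have h2 := h.to_comp
    refine h2.of_eq fun p => ?_
    exact decide_eq_decide.2 Iff.rfl
  refine ⟨fun a => decide (f a = g a), Lim.compc h1 (hf.pair hg), fun a => ?_⟩
  rw [decide_eq_true_iff]

theorem LP.le {n : ℕ} {f g : α → ℕ} (hf : Lim n f) (hg : Lim n g) :
    LP n (fun a => f a ≤ g a) := by
  have h1 : Computable (fun p : ℕ × ℕ => decide (p.1 ≤ p.2)) := by
    obtain ⟨D, h⟩ := Primrec.nat_le
    have h2 := h.to_comp
    refine h2.of_eq fun p => ?_
    exact decide_eq_decide.2 Iff.rfl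
  refine ⟨fun a => decide (f a ≤ g a), Lim.compc h1 (hf.pair hg), fun a => ?_⟩
  rw [decide_eq_true_iff]

theorem LP.lt {n : ℕ} {f g : α → ℕ} (hf : Lim n f) (hg : Lim n g) :
    LP n (fun a => f a < g a) :=
  (LP.le hg hf).not.congr fun a => not_le.symm

theorem Lim.ite {n : ℕ} {P : α → Prop} [DecidablePred P] {f g : α → β} (hP : LP n P) (hf : Lim n f)
    (hg : Lim n g) : Lim n (fun a => if P a then f a else g a) := by
  obtain ⟨b, hb, hP⟩ := hP
  have h1 : Computable (fun p : Bool × β × β => cond p.1 p.2.1 p.2.2) :=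
    Computable.cond Computable.fst (Computable.fst.comp Computable.snd)
      (Computable.snd.comp Computable.snd)
  have h2 : (fun a => if P a then f a else g a) =
      fun a => (fun p : Bool × β × β => cond p.1 p.2.1 p.2.2) (b a, f a, g a) := by
    funext a
    by_cases h : P a
    · rw [if_pos h]
      rw [hP] at h
      simp only [h, cond_true]
    · rw [if_neg h]
      rw [hP] at h
      simp only [h, cond_false]
  rw [h2]
  exact Lim.compc h1 (hb.pair (hf.pair hg))

/-- bounded universal quantifiers -/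
theorem LP.ball {n : ℕ} {P : α × ℕ → Prop} {g : α → ℕ} (hP : LP n P) (hg : Lim n g) :
    LP n (fun a => ∀ b < g a, P (a, b)) := by
  classical
  have h1 : Lim n (fun p : α × ℕ =>
      (Nat.rec true (fun j r => if P (p.1, j) ∧ r = true then true else false) p.2 : Bool)) := by
    refine Lim.rec (f := fun _ : α => true)
      (h := fun q : α × ℕ × Bool => if P (q.1, q.2.1) ∧ q.2.2 = true then true else false)
      (Lim.const _) ?_
    refine Lim.ite (LP.and (hP.comp (g := fun q : α × ℕ × Bool => (q.1, q.2.1)) ?_)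
      (LP.eq (β := Bool) (f := fun q : α × ℕ × Bool => q.2.2) (g := fun _ => true) ?_
        (Lim.const true))) (Lim.const true) (Lim.const false)
    · exact Lim.of_computable n (Computable.fst.pair (Computable.fst.comp Computable.snd))
    · exact Lim.of_computable (α := α × ℕ × Bool) n (Computable.snd.comp Computable.snd)
  refine ⟨fun a => (Nat.rec true (fun j r => if P (a, j) ∧ r = true then true else false) (g a)),
    h1.comp (Lim.id.pair hg), fun a => ?_⟩
  beta_reduce
  generalize g a = m
  induction m with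
  | zero => simp
  | succ m ih =>
    rw [Nat.forall_lt_succ_right, ih]
    change _ ↔ (if P (a, m) ∧ (Nat.rec true (fun j r => if P (a, j) ∧ r = true then true else false)
      m : Bool) = true then true else false) = true
    by_cases h2 : P (a, m) ∧ (Nat.rec true (fun j r => if P (a, j) ∧ r = true then true else false)
      m : Bool) = true
    · rw [if_pos h2]
      exact ⟨fun _ => rfl, fun _ => ⟨h2.2, h2.1⟩⟩
    · rw [if_neg h2]
      exact ⟨fun h3 => absurd ⟨h3.2, h3.1⟩ h2, fun h3 => absurd h3 Bool.false_ne_true⟩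

theorem LP.bex {n : ℕ} {P : α × ℕ → Prop} {g : α → ℕ} (hP : LP n P) (hg : Lim n g) :
    LP n (fun a => ∃ b < g a, P (a, b)) :=
  (LP.ball hP.not hg).not.congr fun a => by push Not; rfl

/-- unbounded quantifiers -/
theorem LP.ex {n : ℕ} {P : α × ℕ → Prop} (hP : LP n P) : LP (n + 1) (fun a => ∃ b, P (a, b)) := by
  classical
  have h1 : LP n (fun p : α × ℕ => ∃ b < p.2, P (p.1, b)) :=
    LP.bex (α := α × ℕ) (P := fun q => P (q.1.1, q.2)) (g := fun p => p.2)
      (hP.comp (Lim.of_computable n ((Computable.fst.comp Computable.fst).pair Computable.snd)))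
      (Lim.of_computable n Computable.snd)
  obtain ⟨f, hf, hf'⟩ := h1
  refine ⟨fun a => decide (∃ b, P (a, b)), ⟨f, hf, fun a => ?_⟩, fun a => by
    rw [decide_eq_true_iff]⟩
  by_cases h : ∃ b, P (a, b)
  · obtain ⟨b, hb⟩ := h
    refine ⟨b + 1, fun s hs => ?_⟩
    beta_reduce
    rw [decide_eq_true (⟨b, hb⟩ : ∃ b, P (a, b)), ← hf']
    exact ⟨b, by omega, hb⟩
  · refine ⟨0, fun s _ => ?_⟩
    beta_reduce
    rw [decide_eq_false h]
    cases h2 : f (a, s) with
    | false => rfl
    | true =>
      obtain ⟨b, -, hb⟩ := (hf' (a, s)).2 h2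
      exact absurd ⟨b, hb⟩ h

theorem LP.all {n : ℕ} {P : α × ℕ → Prop} (hP : LP n P) : LP (n + 1) (fun a => ∀ b, P (a, b)) :=
  hP.not.ex.not.congr fun a => by push Not; rfl

/-! ### least search -/

open Classical in
/-- the least `j < b` with `P j`, or `b` -/
noncomputable def lst (P : ℕ → Prop) : ℕ → ℕ
  | 0 => 0
  | j + 1 => if lst P j < j then lst P j else if P j then j else j + 1

theorem lst_spec (P : ℕ → Prop) (b : ℕ) : lst P b ≤ b ∧ (lst P b < b → P (lst P b)) ∧
    ∀ l < lst P b, ¬ P l := by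
  classical
  induction b with
  | zero => exact ⟨le_rfl, fun h => absurd h (lt_irrefl _), fun l hl => absurd hl (Nat.not_lt_zero l)⟩
  | succ b ih =>
    obtain ⟨h1, h2, h3⟩ := ih
    unfold lst
    by_cases h4 : lst P b < b
    · rw [if_pos h4]
      exact ⟨by omega, fun _ => h2 h4, h3⟩
    · rw [if_neg h4]
      have h5 : lst P b = b := by omega
      rw [h5] at h3
      by_cases h6 : P b
      · rw [if_pos h6]
        exact ⟨by omega, fun _ => h6, h3⟩
      · rw [if_neg h6]
        refine ⟨le_rfl, fun h => absurd h (lt_irrefl _), fun l hl => ?_⟩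
        rcases Nat.lt_succ_iff_lt_or_eq.1 hl with h7 | h7
        · exact h3 l h7
        · rw [h7]
          exact h6

theorem lst_lt {P : ℕ → Prop} {b : ℕ} (h : ∃ j < b, P j) : lst P b < b ∧ P (lst P b) := by
  obtain ⟨j, hj, hPj⟩ := h
  obtain ⟨h1, h2, h3⟩ := lst_spec P b
  have h4 : lst P b < b := by
    by_contra h5
    exact h3 j (by omega) hPj
  exact ⟨h4, h2 h4⟩

theorem Lim.lst {n : ℕ} {P : α × ℕ → Prop} (hP : LP n P) :
    Lim n (fun p : α × ℕ => lst (fun j => P (p.1, j)) p.2) := by
  classical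
  have h1 : Lim n (fun p : α × ℕ =>
      (Nat.rec 0 (fun j r => if r < j then r else if P (p.1, j) then j else j + 1) p.2 : ℕ)) := by
    refine Lim.rec (f := fun _ : α => 0)
      (h := fun q : α × ℕ × ℕ => if q.2.2 < q.2.1 then q.2.2 else if P (q.1, q.2.1) then q.2.1
        else q.2.1 + 1) (Lim.const _) ?_
    have c1 : Computable (fun q : α × ℕ × ℕ => q.2.1) := Computable.fst.comp Computable.snd
    have c2 : Computable (fun q : α × ℕ × ℕ => q.2.2) := Computable.snd.comp Computable.snd
    have h3 := Lim.ite (LP.lt (Lim.of_computable n c2) (Lim.of_computable n c1))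
      (Lim.of_computable n c2) (Lim.ite (hP.comp
        (Lim.of_computable n (Computable.fst.pair c1))) (Lim.of_computable n c1)
        (Lim.of_computable n (Computable.succ.comp c1)))
    convert h3
  have h2 : (fun p : α × ℕ => AEL.lst (fun j => P (p.1, j)) p.2) = fun p : α × ℕ =>
      (Nat.rec 0 (fun j r => if r < j then r else if P (p.1, j) then j else j + 1) p.2 : ℕ) := by
    funext p
    obtain ⟨a, m⟩ := p
    change AEL.lst (fun j => P (a, j)) m =
      Nat.rec 0 (fun j r => if r < j then r else if P (a, j) then j else j + 1) m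
    induction m with
    | zero => rfl
    | succ m ih =>
      unfold AEL.lst
      rw [ih]
  rw [h2]
  exact h1

/-- unbounded search -/
theorem Lim.find {n : ℕ} {P : α × ℕ → Prop} (hP : LP n P) (F : α → ℕ) (hF : ∀ a, P (a, F a))
    (hF' : ∀ a, ∀ j < F a, ¬ P (a, j)) : Lim n F := by
  cases n with
  | zero =>
    obtain ⟨f, hf, hf'⟩ := hP
    have h1 : Computable f := hf
    have h2 : Partrec (fun a => Nat.rfind (fun b => Part.some (f (a, b)))) :=
      Partrec.rfind (p := fun a b => Part.some (f (a, b))) h1.partrec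
    have h3 : (fun a => Nat.rfind (fun b => Part.some (f (a, b)))) = fun a => Part.some (F a) := by
      funext a
      rw [Part.eq_some_iff, Nat.mem_rfind]
      refine ⟨?_, fun {m} hm => ?_⟩
      · rw [Part.mem_some_iff]
        exact ((hf' _).1 (hF a)).symm
      · rw [Part.mem_some_iff]
        cases h : f (a, m) with
        | false => rfl
        | true => exact absurd ((hf' _).2 h) (hF' a m hm)
    rw [h3] at h2
    exact h2
  | succ n =>
    obtain ⟨f, ⟨f', hf', hfl⟩, hf⟩ := hP
    refine ⟨fun p => AEL.lst (fun j => f' ((p.1, j), p.2) = true) p.2, ?_, fun a => ?_⟩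
    · have h1 : LP n (fun q : (α × ℕ) × ℕ => f' ((q.1.1, q.2), q.1.2) = true) :=
        LP.eq (hf'.comp_left (((Computable.fst.comp Computable.fst).pair Computable.snd).pair
          (Computable.snd.comp Computable.fst))) (Lim.const true)
      exact (Lim.lst h1).comp (Lim.id.pair (Lim.of_computable n Computable.snd))
    · have h1 : ∃ s₀, ∀ s ≥ s₀, ∀ j ≤ F a, f' ((a, j), s) = f (a, j) := by
        have h2 : ∀ m, ∃ s₀, ∀ s ≥ s₀, ∀ j < m, f' ((a, j), s) = f (a, j) := by
          intro m
          induction m with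
          | zero => exact ⟨0, fun s _ j hj => absurd hj (Nat.not_lt_zero j)⟩
          | succ m ih =>
            obtain ⟨s₀, h₀⟩ := ih
            obtain ⟨s₁, h₁⟩ := hfl (a, m)
            refine ⟨max s₀ s₁, fun s hs j hj => ?_⟩
            rcases Nat.lt_succ_iff_lt_or_eq.1 hj with h7 | h7
            · exact h₀ s (le_trans (le_max_left _ _) hs) j h7
            · rw [h7]
              exact h₁ s (le_trans (le_max_right _ _) hs)
        obtain ⟨s₀, h₀⟩ := h2 (F a + 1)
        exact ⟨s₀, fun s hs j hj => h₀ s hs j (Nat.lt_succ_of_le hj)⟩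
      obtain ⟨s₀, h₀⟩ := h1
      refine ⟨max s₀ (F a + 1), fun s hs => ?_⟩
      change AEL.lst (fun j => f' ((a, j), s) = true) s = F a
      have hs0 : s ≥ s₀ := le_trans (le_max_left _ _) hs
      have hs1 : F a + 1 ≤ s := le_trans (le_max_right _ _) hs
      have hP1 : f' ((a, F a), s) = true := by
        rw [h₀ s hs0 (F a) le_rfl, ← hf]
        exact hF a
      obtain ⟨h3, h4⟩ := lst_lt (P := fun j => f' ((a, j), s) = true) (b := s)
        ⟨F a, by omega, hP1⟩
      obtain ⟨-, -, h5⟩ := lst_spec (fun j => f' ((a, j), s) = true) s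
      have h6 : AEL.lst (fun j => f' ((a, j), s) = true) s ≤ F a := by
        by_contra h7
        exact h5 (F a) (by omega) hP1
      by_contra h7
      have h8 : AEL.lst (fun j => f' ((a, j), s) = true) s < F a := lt_of_le_of_ne h6 h7
      rw [h₀ s hs0 _ h8.le, ← hf] at h4
      exact hF' a _ h8 h4

end

end Pool.Agent.Helper22.AEL
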