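import Pool.Agent.Helper22.AEL.Lim

/-!
# Symbolic systems

`X = (ℕ → Fin k)` with the map `T u = u ∘ t`; agreement of two points on the first `m` coordinates,
orbit closures, uniformly recurrent and proximal points, minimal sets, codes of finite words.
-/

set_option autoImplicit false

namespace Pool.Agent.Helper22.AEL

/-! ### digits -/

/-- the `i`-th digit of `s` in base `b` -/
def dg (b s i : ℕ) : ℕ := s / b ^ i % b

theorem dg_lt {b : ℕ} (hb : 0 < b) (s i : ℕ) : dg b s i < b := Nat.mod_lt _ hb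

theorem app_lt {b s v m : ℕ} (hs : s < b ^ m) (hv : v < b) : s + v * b ^ m < b ^ (m + 1) := by
  have h1 : (v + 1) * b ^ m ≤ b * b ^ m := Nat.mul_le_mul_right _ hv
  rw [pow_succ]
  nlinarith [h1]

theorem dg_app_eq {b s v m : ℕ} (hs : s < b ^ m) (hv : v < b) : dg b (s + v * b ^ m) m = v := by
  have h1 : 0 < b ^ m := by omega
  unfold dg
  rw [Nat.add_mul_div_right _ _ h1, Nat.div_eq_of_lt hs, zero_add, Nat.mod_eq_of_lt hv]

theorem dg_app_lt {b s v m i : ℕ} (hb : 0 < b) (hi : i < m) : dg b (s + v * b ^ m) i = dg b s i := by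
  unfold dg
  obtain ⟨j, rfl⟩ : ∃ j, m = i + (j + 1) := ⟨m - i - 1, by omega⟩
  have h1 : v * b ^ (i + (j + 1)) = (v * b ^ j * b) * b ^ i := by ring
  rw [h1, Nat.add_mul_div_right _ _ (pow_pos hb i), Nat.add_mul_mod_self_right]

/-- the code of the word `u 0, …, u (m - 1)` -/
def pc {k : ℕ} (u : ℕ → Fin k) : ℕ → ℕ
  | 0 => 0
  | m + 1 => pc u m + (u m : ℕ) * k ^ m

theorem pc_lt {k : ℕ} (u : ℕ → Fin k) (m : ℕ) : pc u m < k ^ m := by
  induction m with
  | zero => exact Nat.one_pos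
  | succ m ih => exact app_lt ih (u m).2

theorem dg_pc {k : ℕ} (u : ℕ → Fin k) {m i : ℕ} (hi : i < m) : dg k (pc u m) i = u i := by
  have hk : 0 < k := Nat.pos_of_ne_zero (by rintro rfl; exact (u 0).elim0)
  induction m with
  | zero => exact absurd hi (Nat.not_lt_zero i)
  | succ m ih =>
    change dg k (pc u m + (u m : ℕ) * k ^ m) i = u i
    rcases Nat.lt_succ_iff_lt_or_eq.1 hi with h | h
    · rw [dg_app_lt hk h, ih h]
    · rw [h, dg_app_eq (pc_lt u m) (u m).2]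

/-! ### systems -/

section

variable {k : ℕ}

/-- the `n`-th iterate of the map `u ↦ u ∘ t` -/
def sh (t : ℕ → ℕ) (n : ℕ) (u : ℕ → Fin k) : ℕ → Fin k := fun i => u (t^[n] i)

/-- agreement on the first `m` coordinates -/
def Ag (m : ℕ) (u v : ℕ → Fin k) : Prop := ∀ i < m, u i = v i

/-- `y` is uniformly recurrent -/
def UR (t : ℕ → ℕ) (y : ℕ → Fin k) : Prop := ∀ m, ∃ L, ∀ n, ∃ j < L, Ag m (sh t (n + j) y) y

/-- `x` and `y` are proximal -/
def Prox (t : ℕ → ℕ) (x y : ℕ → Fin k) : Prop := ∀ m N, ∃ n ≥ N, Ag m (sh t n x) (sh t n y)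

/-- the closure of the orbit of `x` -/
def OC (t : ℕ → ℕ) (x : ℕ → Fin k) : Set (ℕ → Fin k) := {w | ∀ m, ∃ n, Ag m (sh t n x) w}

/-- minimal sets: closed, invariant, not empty, and all orbits are dense -/
structure MinimalSet (t : ℕ → ℕ) (M : Set (ℕ → Fin k)) : Prop where
  ne : M.Nonempty
  closed : IsClosed M
  inv : ∀ z ∈ M, sh t 1 z ∈ M
  dense : ∀ z ∈ M, ∀ w ∈ M, ∀ m, ∃ n, Ag m (sh t n z) w

/-- the words coded by `s` -/
def cy (m s : ℕ) : Set (ℕ → Fin k) := {u | ∀ i < m, (u i : ℕ) = dg k s i}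

variable {t : ℕ → ℕ}

theorem sh_add (m n : ℕ) (u : ℕ → Fin k) : sh t (m + n) u = sh t m (sh t n u) := by
  funext i
  change u (t^[m + n] i) = u (t^[n] (t^[m] i))
  rw [add_comm, Function.iterate_add_apply]

theorem sh_zero (u : ℕ → Fin k) : sh t 0 u = u := rfl

theorem Ag.refl (m : ℕ) (u : ℕ → Fin k) : Ag m u u := fun _ _ => rfl

theorem Ag.symm {m : ℕ} {u v : ℕ → Fin k} (h : Ag m u v) : Ag m v u := fun i hi => (h i hi).symm

theorem Ag.trans {m : ℕ} {u v w : ℕ → Fin k} (h : Ag m u v) (h' : Ag m v w) : Ag m u w :=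
  fun i hi => (h i hi).trans (h' i hi)

theorem Ag.mono {m m' : ℕ} {u v : ℕ → Fin k} (h : Ag m u v) (hm : m' ≤ m) : Ag m' u v :=
  fun i hi => h i (lt_of_lt_of_le hi hm)

theorem eq_of_ag {u v : ℕ → Fin k} (h : ∀ m, Ag m u v) : u = v :=
  funext fun i => h (i + 1) i (Nat.lt_succ_self i)

/-- a modulus for finitely many iterates -/
theorem exists_mod (t : ℕ → ℕ) (m N : ℕ) : ∃ K, m ≤ K ∧ ∀ n < N, ∀ j < m, t^[n] j < K := by
  induction N with
  | zero => exact ⟨m, le_rfl, fun n hn => absurd hn (Nat.not_lt_zero n)⟩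
  | succ N ih =>
    obtain ⟨K, h1, h2⟩ := ih
    have h3 : ∀ m', ∃ K', ∀ j < m', t^[N] j < K' := by
      intro m'
      induction m' with
      | zero => exact ⟨0, fun j hj => absurd hj (Nat.not_lt_zero j)⟩
      | succ m' ih' =>
        obtain ⟨K', h⟩ := ih'
        refine ⟨max K' (t^[N] m' + 1), fun j hj => ?_⟩
        rcases Nat.lt_succ_iff_lt_or_eq.1 hj with h4 | h4
        · exact lt_of_lt_of_le (h j h4) (le_max_left _ _)
        · rw [h4]
          exact lt_of_lt_of_le (Nat.lt_succ_self _) (le_max_right _ _)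
    obtain ⟨K', h4⟩ := h3 m
    refine ⟨max K K', h1.trans (le_max_left _ _), fun n hn j hj => ?_⟩
    rcases Nat.lt_succ_iff_lt_or_eq.1 hn with h5 | h5
    · exact lt_of_lt_of_le (h2 n h5 j hj) (le_max_left _ _)
    · rw [h5]
      exact lt_of_lt_of_le (h4 j hj) (le_max_right _ _)

theorem Ag.sh {m K n : ℕ} {u v : ℕ → Fin k} (h : Ag K u v) (hK : ∀ j < m, t^[n] j < K) :
    Ag m (sh t n u) (sh t n v) := fun j hj => h _ (hK j hj)

/-- a modulus for one iterate -/
theorem exists_mod1 (t : ℕ → ℕ) (m n : ℕ) :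
    ∃ K, ∀ u v : ℕ → Fin k, Ag K u v → Ag m (AEL.sh t n u) (AEL.sh t n v) := by
  obtain ⟨K, -, hK⟩ := exists_mod t m (n + 1)
  exact ⟨K, fun u v h => h.sh (hK n (Nat.lt_succ_self n))⟩

theorem mem_cy_pc {u v : ℕ → Fin k} {m : ℕ} : v ∈ cy m (pc u m) ↔ Ag m v u := by
  constructor
  · intro h i hi
    apply Fin.ext
    rw [h i hi, dg_pc u hi]
  · intro h i hi
    rw [h i hi, dg_pc u hi]

theorem mem_cy_congr {u v : ℕ → Fin k} {m s : ℕ} (h : Ag m u v) : u ∈ cy m s ↔ v ∈ cy m s := by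
  constructor
  · intro h1 i hi
    rw [← h i hi]
    exact h1 i hi
  · intro h1 i hi
    rw [h i hi]
    exact h1 i hi

theorem mem_cy_app {u : ℕ → Fin k} {m s v : ℕ} (hs : s < k ^ m) (hv : v < k) :
    u ∈ cy (m + 1) (s + v * k ^ m) ↔ u ∈ cy m s ∧ (u m : ℕ) = v := by
  have hk : 0 < k := by omega
  constructor
  · intro h
    refine ⟨fun i hi => ?_, ?_⟩
    · rw [h i (by omega), dg_app_lt hk hi]
    · rw [h m (Nat.lt_succ_self m), dg_app_eq hs hv]
  · rintro ⟨h1, h2⟩ i hi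
    rcases Nat.lt_succ_iff_lt_or_eq.1 hi with h3 | h3
    · rw [dg_app_lt hk h3, h1 i h3]
    · rw [h3, dg_app_eq hs hv, h2]

/-! ### topology -/

theorem continuous_sh (t : ℕ → ℕ) (n : ℕ) : Continuous (sh t n : (ℕ → Fin k) → ℕ → Fin k) :=
  continuous_pi fun i => continuous_apply _

theorem isOpen_eq {Y : Type*} [TopologicalSpace Y] {f g : Y → Fin k} (hf : Continuous f)
    (hg : Continuous g) : IsOpen {y | f y = g y} := by
  have h1 : IsOpen {p : Fin k × Fin k | p.1 = p.2} := isOpen_discrete _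
  exact h1.preimage (hf.prodMk hg)

theorem isOpen_ball {Y : Type*} [TopologicalSpace Y] {P : ℕ → Y → Prop} (m : ℕ)
    (h : ∀ j, IsOpen {y | P j y}) : IsOpen {y | ∀ j < m, P j y} := by
  have h1 : {y | ∀ j < m, P j y} = ⋂ j ∈ Set.Iio m, {y | P j y} := by
    ext y
    simp only [Set.mem_iInter, Set.mem_Iio]
    rfl
  rw [h1]
  exact (Set.finite_Iio m).isOpen_biInter fun j _ => h j

theorem isOpen_ag (m : ℕ) (u : ℕ → Fin k) : IsOpen {v | Ag m v u} :=
  isOpen_ball m fun _ => isOpen_eq (continuous_apply _) continuous_const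

theorem isOpen_cy (m s : ℕ) : IsOpen (cy m s : Set (ℕ → Fin k)) := by
  refine isOpen_ball (P := fun j (u : ℕ → Fin k) => (u j : ℕ) = dg k s j) m fun j => ?_
  have h1 : IsOpen {v : Fin k | (v : ℕ) = dg k s j} := isOpen_discrete _
  have h2 : Continuous (fun u : ℕ → Fin k => u j) := continuous_apply j
  exact h1.preimage h2

/-- points of the closure -/
theorem mem_of_ag {M : Set (ℕ → Fin k)} (hM : IsClosed M) {z : ℕ → Fin k}
    (h : ∀ m, ∃ w ∈ M, Ag m w z) : z ∈ M := by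
  rw [← hM.closure_eq, mem_closure_iff_nhds]
  intro U hU
  rw [mem_nhds_iff] at hU
  obtain ⟨V, hVU, hV, hzV⟩ := hU
  rw [isOpen_pi_iff] at hV
  obtain ⟨I, u, hu, hsub⟩ := hV z hzV
  obtain ⟨w, hw, hag⟩ := h (I.sup id + 1)
  refine ⟨w, hVU (hsub ?_), hw⟩
  intro i hi
  rw [hag i (Nat.lt_succ_of_le (Finset.le_sup (f := id) hi))]
  exact (hu i hi).2

theorem inv_sh {M : Set (ℕ → Fin k)} (hM : ∀ z ∈ M, sh t 1 z ∈ M) (n : ℕ) {z : ℕ → Fin k}
    (hz : z ∈ M) : sh t n z ∈ M := by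
  induction n with
  | zero => exact hz
  | succ n ih =>
    rw [add_comm, sh_add]
    exact hM _ ih

/-! ### computability of the basic predicates -/

section Comp

variable {α : Type} [Primcodable α]

theorem comp_pow (b : ℕ) : Computable (fun i : ℕ => b ^ i) := by
  have h1 : Computable (fun i : ℕ => (Nat.rec 1 (fun _ r => r * b) i : ℕ)) :=
    Computable.nat_rec (f := fun i : ℕ => i) (g := fun _ => 1)
      (h := fun (_ : ℕ) (q : ℕ × ℕ) => q.2 * b) Computable.id (Computable.const 1)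
      (Primrec.nat_mul.to_comp.comp (Computable.snd.comp Computable.snd) (Computable.const b))
  refine h1.of_eq fun i => ?_
  induction i with
  | zero => rfl
  | succ i ih => rw [pow_succ, ← ih]

theorem comp_dg (b : ℕ) : Computable (fun p : ℕ × ℕ => dg b p.1 p.2) :=
  Primrec.nat_mod.to_comp.comp (Primrec.nat_div.to_comp.comp Computable.fst
    ((comp_pow b).comp Computable.snd)) (Computable.const b)

theorem comp_iter {t : ℕ → ℕ} (ht : Computable t) : Computable (fun p : ℕ × ℕ => t^[p.1] p.2) := by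
  have h1 : Computable (fun p : ℕ × ℕ => (Nat.rec p.2 (fun _ r => t r) p.1 : ℕ)) :=
    Computable.nat_rec (f := fun p : ℕ × ℕ => p.1) (g := fun p => p.2)
      (h := fun (_ : ℕ × ℕ) (q : ℕ × ℕ) => t q.2) Computable.fst Computable.snd
      (ht.comp (Computable.snd.comp Computable.snd))
  refine h1.of_eq fun p => ?_
  obtain ⟨n, i⟩ := p
  change (Nat.rec i (fun _ r => t r) n : ℕ) = t^[n] i
  induction n with
  | zero => rfl
  | succ n ih => rw [Function.iterate_succ_apply', ← ih]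

theorem comp_val : Computable (fun v : Fin k => (v : ℕ)) := Primrec.fin_val.to_comp

theorem Lim.dg {n b : ℕ} {f g : α → ℕ} (hf : Lim n f) (hg : Lim n g) :
    Lim n (fun a => dg b (f a) (g a)) := Lim.compc (comp_dg b) (hf.pair hg)

theorem Lim.pow {n b : ℕ} {f : α → ℕ} (hf : Lim n f) : Lim n (fun a => b ^ f a) :=
  Lim.compc (comp_pow b) hf

theorem Lim.iter {n : ℕ} {t : ℕ → ℕ} (ht : Computable t) {f g : α → ℕ} (hf : Lim n f)
    (hg : Lim n g) : Lim n (fun a => t^[f a] (g a)) := Lim.compc (comp_iter ht) (hf.pair hg)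

theorem Lim.add {n : ℕ} {f g : α → ℕ} (hf : Lim n f) (hg : Lim n g) :
    Lim n (fun a => f a + g a) :=
  Lim.compc (f := fun p : ℕ × ℕ => p.1 + p.2) Primrec.nat_add.to_comp (hf.pair hg)

theorem Lim.mul {n : ℕ} {f g : α → ℕ} (hf : Lim n f) (hg : Lim n g) :
    Lim n (fun a => f a * g a) :=
  Lim.compc (f := fun p : ℕ × ℕ => p.1 * p.2) Primrec.nat_mul.to_comp (hf.pair hg)

theorem Lim.unpair₁ {n : ℕ} {f : α → ℕ} (hf : Lim n f) : Lim n (fun a => (f a).unpair.1) :=
  Lim.compc (f := fun m : ℕ => m.unpair.1) (Computable.fst.comp Computable.unpair) hf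

theorem Lim.unpair₂ {n : ℕ} {f : α → ℕ} (hf : Lim n f) : Lim n (fun a => (f a).unpair.2) :=
  Lim.compc (f := fun m : ℕ => m.unpair.2) (Computable.snd.comp Computable.unpair) hf

theorem Lim.natPair {n : ℕ} {f g : α → ℕ} (hf : Lim n f) (hg : Lim n g) :
    Lim n (fun a => Nat.pair (f a) (g a)) :=
  Lim.compc (f := fun p : ℕ × ℕ => Nat.pair p.1 p.2) Primrec₂.natPair.to_comp (hf.pair hg)

/-- values of iterates of a point -/
theorem Lim.sh {n : ℕ} {t : ℕ → ℕ} (ht : Computable t) {u : ℕ → Fin k} (hu : Lim n u)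
    {f g : α → ℕ} (hf : Lim n f) (hg : Lim n g) :
    Lim n (fun a => ((AEL.sh t (f a) u (g a) : Fin k) : ℕ)) :=
  Lim.compc comp_val (hu.comp (Lim.iter ht hf hg))

/-- `T^f u` is in the cylinder `(g, h)` -/
theorem LP.cy {n : ℕ} {t : ℕ → ℕ} (ht : Computable t) {u : ℕ → Fin k} (hu : Lim n u)
    {f g h : α → ℕ} (hf : Lim n f) (hg : Lim n g) (hh : Lim n h) :
    LP n (fun a => AEL.sh t (f a) u ∈ AEL.cy (g a) (h a)) := by
  have h1 : LP n (fun a => ∀ i < g a, ((AEL.sh t (f a) u i : Fin k) : ℕ) = AEL.dg k (h a) i) :=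
    LP.ball (P := fun q : α × ℕ => ((AEL.sh t (f q.1) u q.2 : Fin k) : ℕ) = AEL.dg k (h q.1) q.2)
      (LP.eq (Lim.sh ht hu (hf.comp_left Computable.fst) (Lim.of_computable n Computable.snd))
        (Lim.dg (hh.comp_left Computable.fst) (Lim.of_computable n Computable.snd))) hg
  exact h1

end Comp

/-- the lexicographically least branch of a tree without leaves -/
theorem exists_path (hk : 0 < k) {n : ℕ} {R : ℕ × ℕ → Prop} (hR : LP n R) (h0 : R (0, 0))
    (hs : ∀ m s, s < k ^ m → R (m, s) → ∃ v < k, R (m + 1, s + v * k ^ m)) :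
    ∃ y : ℕ → Fin k, Lim n y ∧ ∀ m, R (m, pc y m) := by
  obtain ⟨v, hv⟩ : ∃ v : ℕ → ℕ → ℕ, v = fun m s => lst (fun v => R (m + 1, s + v * k ^ m)) k :=
    ⟨_, rfl⟩
  obtain ⟨S, hS⟩ : ∃ S : ℕ → ℕ, S = fun m =>
      (Nat.rec 0 (fun j r => r + v j r * k ^ j) m : ℕ) := ⟨_, rfl⟩
  have hS0 : S 0 = 0 := by rw [hS]; rfl
  have hS1 : ∀ m, S (m + 1) = S m + v m (S m) * k ^ m := by intro m; rw [hS]
  have key : ∀ m, S m < k ^ m ∧ R (m, S m) ∧ v m (S m) < k := by
    have hstep : ∀ m s, s < k ^ m → R (m, s) → v m s < k ∧ R (m + 1, s + v m s * k ^ m) := by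
      intro m s h1 h2
      have h3 := lst_lt (P := fun v => R (m + 1, s + v * k ^ m)) (b := k) (hs m s h1 h2)
      rw [hv]
      exact h3
    intro m
    induction m with
    | zero =>
      rw [hS0]
      exact ⟨Nat.one_pos, h0, (hstep 0 0 Nat.one_pos h0).1⟩
    | succ m ih =>
      obtain ⟨h1, h2, h3⟩ := ih
      have h4 := hstep m (S m) h1 h2
      rw [hS1]
      exact ⟨app_lt h1 h3, h4.2, (hstep _ _ (app_lt h1 h3) h4.2).1⟩
  have hvL : Lim n (fun p : ℕ × ℕ => v p.1 p.2) := by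
    have h1 : LP n (fun q : (ℕ × ℕ) × ℕ => R (q.1.1 + 1, q.1.2 + q.2 * k ^ q.1.1)) := by
      have c1 : Lim n (fun q : (ℕ × ℕ) × ℕ => q.1.1) :=
        Lim.of_computable n (Computable.fst.comp Computable.fst)
      have c2 : Lim n (fun q : (ℕ × ℕ) × ℕ => q.1.2) :=
        Lim.of_computable n (Computable.snd.comp Computable.fst)
      have c3 : Lim n (fun q : (ℕ × ℕ) × ℕ => q.2) := Lim.of_computable n Computable.snd
      exact hR.comp ((c1.add (Lim.const 1)).pair (c2.add (c3.mul (c1.pow))))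
    have h2 := (Lim.lst h1).comp (Lim.id.pair (Lim.const (α := ℕ × ℕ) k))
    rw [hv]
    exact h2
  have hSL : Lim n S := by
    have c1 : Lim n (fun q : Unit × ℕ × ℕ => q.2.1) :=
      Lim.of_computable n (Computable.fst.comp Computable.snd)
    have c2 : Lim n (fun q : Unit × ℕ × ℕ => q.2.2) :=
      Lim.of_computable n (Computable.snd.comp Computable.snd)
    have h1 := Lim.rec (f := fun _ : Unit => 0)
      (h := fun q : Unit × ℕ × ℕ => q.2.2 + v q.2.1 q.2.2 * k ^ q.2.1) (Lim.const 0)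
      (c2.add ((hvL.comp (c1.pair c2)).mul c1.pow))
    have h2 := h1.comp ((Lim.const (α := ℕ) ()).pair Lim.id)
    rw [hS]
    exact h2
  obtain ⟨y, hy⟩ : ∃ y : ℕ → Fin k, ∀ m, (y m : ℕ) = v m (S m) :=
    ⟨fun m => ⟨v m (S m), (key m).2.2⟩, fun m => rfl⟩
  have hpc : ∀ m, pc y m = S m := by
    intro m
    induction m with
    | zero => rw [hS0]; rfl
    | succ m ih =>
      rw [hS1, ← hy, ← ih]
      rfl
  refine ⟨y, ?_, fun m => ?_⟩
  · have h1 : Lim n (fun m => (y m : ℕ)) := by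
      have h2 : (fun m => (y m : ℕ)) = fun m => v m (S m) := funext hy
      rw [h2]
      exact hvL.comp (Lim.id.pair hSL)
    have h2 : Computable (fun m : ℕ => (⟨m % k, Nat.mod_lt _ hk⟩ : Fin k)) := by
      refine Primrec.to_comp ?_
      rw [← Primrec.fin_val_iff]
      exact Primrec.nat_mod.comp Primrec.id (Primrec.const k)
    have h3 := Lim.compc h2 h1
    have h4 : (fun a => (⟨(y a : ℕ) % k, Nat.mod_lt _ hk⟩ : Fin k)) = y := by
      funext a
      exact Fin.ext (Nat.mod_eq_of_lt (y a).2)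
    rw [h4] at h3
    exact h3
  · rw [hpc]
    exact (key m).2.1

end

end Pool.Agent.Helper22.AEL
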