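import Pool.Agent.Helper22.AEL.Cases

/-!
# Finite towers of distal and proximal extensions

`J' ⊆ J` sets of coordinates closed under `t`; the restriction of a minimal set `M` to `J` is an
extension of the restriction to `J'`.  A point `y'` of `M` which is proximal to `x` on `J'` is
improved to a point `y` of `M` which agrees with `y'` on `J'` and is proximal to `x` on `J`.
-/

set_option autoImplicit false

namespace Pool.Agent.Helper22.AEL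

open Filter Topology

attribute [local instance] Ultrafilter.add Ultrafilter.addSemigroup

section

variable {k : ℕ} {t : ℕ → ℕ}

/-- agreement on `J` -/
def AgE (J : Set ℕ) (u v : ℕ → Fin k) : Prop := ∀ i ∈ J, u i = v i

/-- agreement on `J` below `m` -/
def AgJ (J : Set ℕ) (m : ℕ) (u v : ℕ → Fin k) : Prop := ∀ i < m, i ∈ J → u i = v i

/-- `x` and `y` are proximal on `J` -/
def ProxOn (t : ℕ → ℕ) (J : Set ℕ) (x y : ℕ → Fin k) : Prop :=
  ∀ m N, ∃ n ≥ N, AgJ J m (sh t n x) (sh t n y)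

theorem AgE.symm {J : Set ℕ} {u v : ℕ → Fin k} (h : AgE J u v) : AgE J v u :=
  fun i hi => (h i hi).symm

theorem AgE.trans {J : Set ℕ} {u v w : ℕ → Fin k} (h : AgE J u v) (h' : AgE J v w) : AgE J u w :=
  fun i hi => (h i hi).trans (h' i hi)

theorem AgE.mono {J J' : Set ℕ} {u v : ℕ → Fin k} (h : AgE J u v) (hJ : J' ⊆ J) : AgE J' u v :=
  fun i hi => h i (hJ hi)

theorem AgJ.mono {J : Set ℕ} {m m' : ℕ} {u v : ℕ → Fin k} (h : AgJ J m u v) (hm : m' ≤ m) :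
    AgJ J m' u v := fun i hi => h i (lt_of_lt_of_le hi hm)

theorem AgE.agJ {J : Set ℕ} {u v : ℕ → Fin k} (h : AgE J u v) (m : ℕ) : AgJ J m u v :=
  fun i _ hi => h i hi

theorem AgJ.trans {J : Set ℕ} {m : ℕ} {u v w : ℕ → Fin k} (h : AgJ J m u v) (h' : AgJ J m v w) :
    AgJ J m u w := fun i hi hJ => (h i hi hJ).trans (h' i hi hJ)

theorem AgJ.symm {J : Set ℕ} {m : ℕ} {u v : ℕ → Fin k} (h : AgJ J m u v) : AgJ J m v u :=
  fun i hi hJ => (h i hi hJ).symm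

theorem Ag.agJ {m : ℕ} {u v : ℕ → Fin k} (h : Ag m u v) (J : Set ℕ) : AgJ J m u v :=
  fun i hi _ => h i hi

theorem agE_of_agJ {J : Set ℕ} {u v : ℕ → Fin k} (h : ∀ m, AgJ J m u v) : AgE J u v :=
  fun i hi => h (i + 1) i (Nat.lt_succ_self i) hi

theorem iter_mem {J : Set ℕ} (hJ : ∀ i ∈ J, t i ∈ J) (n : ℕ) {i : ℕ} (hi : i ∈ J) :
    t^[n] i ∈ J := by
  induction n with
  | zero => exact hi
  | succ n ih =>
    rw [Function.iterate_succ_apply']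
    exact hJ _ ih

theorem act_agE {J : Set ℕ} (hJ : ∀ i ∈ J, t i ∈ J) (U : Ultrafilter ℕ) {u v : ℕ → Fin k}
    (h : AgE J u v) : AgE J (act t U u) (act t U v) := by
  intro i hi
  refine act_uniq ?_
  filter_upwards [act_ev (t := t) U v i] with n hn
  rw [← hn]
  exact h _ (iter_mem hJ n hi)

theorem act_agJ (J : Set ℕ) (U : Ultrafilter ℕ) {u v : ℕ → Fin k} (h : AgE J (act t U u) v)
    (m : ℕ) : ∀ᶠ n in (U : Filter ℕ), AgJ J m (sh t n u) v := by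
  filter_upwards [act_ag (t := t) U u m] with n hn i hi hJ
  rw [hn i hi]
  exact h i hJ

theorem agE_act {J : Set ℕ} {U : Ultrafilter ℕ} {u v : ℕ → Fin k}
    (h : ∀ m, ∀ᶠ n in (U : Filter ℕ), AgJ J m (sh t n u) v) : AgE J (act t U u) v := by
  intro i hi
  refine act_uniq ?_
  filter_upwards [h (i + 1)] with n hn
  exact hn i (Nat.lt_succ_self i) hi

theorem isClosed_agE (J : Set ℕ) (u v : ℕ → Fin k) :
    IsClosed {U : Ultrafilter ℕ | AgE J (act t U u) v} := by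
  have h1 : {U : Ultrafilter ℕ | AgE J (act t U u) v} =
      ⋂ i ∈ J, (fun U : Ultrafilter ℕ => act t U u) ⁻¹' {w | w i = v i} := by
    ext U
    simp only [Set.mem_iInter]
    rfl
  rw [h1]
  refine isClosed_biInter fun i _ => IsClosed.preimage (continuous_act u) ?_
  exact isClosed_eq (continuous_apply i) continuous_const

/-- idempotents which fix `y'` on `J'` -/
theorem exists_idemJ {M : Set (ℕ → Fin k)} (hM : IsClosed M) (hinv : ∀ z ∈ M, sh t 1 z ∈ M)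
    (x y' : ℕ → Fin k) {J' : Set ℕ} (hJ' : ∀ i ∈ J', t i ∈ J')
    (hne : ∃ U : Ultrafilter ℕ, Late U ∧ act t U x ∈ M ∧ AgE J' (act t U x) y' ∧
      AgE J' (act t U y') y') :
    ∃ U : Ultrafilter ℕ, Late U ∧ act t U x ∈ M ∧ AgE J' (act t U x) y' ∧
      AgE J' (act t U y') y' ∧ ∀ z : ℕ → Fin k, act t U (act t U z) = act t U z := by
  have hcl : IsClosed {U : Ultrafilter ℕ | Late U ∧ act t U x ∈ M ∧ AgE J' (act t U x) y' ∧
      AgE J' (act t U y') y'} := by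
    have h1 : {U : Ultrafilter ℕ | Late U ∧ act t U x ∈ M ∧ AgE J' (act t U x) y' ∧
        AgE J' (act t U y') y'} =
        (⋂ N, {U : Ultrafilter ℕ | {n | N ≤ n} ∈ U}) ∩
          (((fun U : Ultrafilter ℕ => act t U x) ⁻¹' M) ∩
          ({U : Ultrafilter ℕ | AgE J' (act t U x) y'} ∩
            {U : Ultrafilter ℕ | AgE J' (act t U y') y'})) := by
      ext U
      simp only [Set.mem_inter_iff, Set.mem_iInter]
      rfl
    rw [h1]
    exact IsClosed.inter (isClosed_iInter fun N => ultrafilter_isClosed_basic _)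
      (IsClosed.inter (hM.preimage (continuous_act x))
        (IsClosed.inter (isClosed_agE _ _ _) (isClosed_agE _ _ _)))
  obtain ⟨U, hU, hUU⟩ := exists_idempotent_in_compact_add_subsemigroup
    (fun V : Ultrafilter ℕ => Ultrafilter.continuous_add_left V)
    {U : Ultrafilter ℕ | Late U ∧ act t U x ∈ M ∧ AgE J' (act t U x) y' ∧
      AgE J' (act t U y') y'} hne hcl.isCompact
    (by
      rintro U ⟨hU1, hU2, hU3, hU4⟩ V ⟨hV1, hV2, hV3, hV4⟩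
      refine ⟨fun N => ?_, ?_, ?_, ?_⟩
      · rw [Ultrafilter.eventually_add]
        filter_upwards with m
        filter_upwards [hV1 N] with m' hm'
        omega
      · rw [act_add]
        exact act_mem hM hinv U hV2
      · rw [act_add]
        exact (act_agE hJ' U hV3).trans hU4
      · rw [act_add]
        exact (act_agE hJ' U hV4).trans hU4)
  exact ⟨U, hU.1, hU.2.1, hU.2.2.1, hU.2.2.2, fun z => by rw [← act_add, hUU]⟩

/-- good words -/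
def GJ (t : ℕ → ℕ) (x : ℕ → Fin k) (M : Set (ℕ → Fin k)) (J' : Set ℕ) (y' : ℕ → Fin k)
    (J : Set ℕ) (F : Set (Set (ℕ → Fin k))) (p : ℕ × ℕ) : Prop :=
  ∀ m, ∀ Θ ∈ F, ∃ n ≥ m, sh t n x ∈ (cy p.1 p.2 : Set (ℕ → Fin k)) ∧
    (∃ w ∈ M, Ag m (sh t n x) w) ∧ AgJ J' m (sh t n x) y' ∧ ∀ θ ∈ Θ, AgJ J m (sh t n θ) θ

theorem GJ_zero (x : ℕ → Fin k) (M : Set (ℕ → Fin k)) (J' : Set ℕ) (y' : ℕ → Fin k)
    (J : Set ℕ) (F : Set (Set (ℕ → Fin k)))
    (hF : ∀ Θ ∈ F, Θ.Finite) (U : Ultrafilter ℕ) (hU : Late U) (hx : act t U x ∈ M)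
    (hy : AgE J' (act t U x) y')
    (hfix : ∀ Θ ∈ F, ∀ θ ∈ Θ, AgE J (act t U θ) θ) : GJ t x M J' y' J F (0, 0) := by
  intro m Θ hΘ
  have h1 : ∀ᶠ n in (U : Filter ℕ), ∀ θ ∈ Θ, AgJ J m (sh t n θ) θ := by
    rw [Filter.eventually_all_finite (hF Θ hΘ)]
    intro θ hθ
    exact act_agJ J U (hfix Θ hΘ θ hθ) m
  obtain ⟨n, ⟨⟨h2, h3⟩, h4⟩, h5⟩ :=
    (((h1.and (act_ag (t := t) U x m)).and (hU m)).and (act_agJ J' U hy m)).exists
  exact ⟨n, h4, fun i hi => absurd hi (Nat.not_lt_zero i), ⟨_, hx, h3⟩, h5, h2⟩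

theorem GJ_succ (x : ℕ → Fin k) (M : Set (ℕ → Fin k)) (J' : Set ℕ) (y' : ℕ → Fin k)
    (J : Set ℕ) (F : Set (Set (ℕ → Fin k)))
    (hF : ∀ f : Fin k → Set (ℕ → Fin k), (∀ v, f v ∈ F) → ∃ Θ ∈ F, ∀ v, f v ⊆ Θ)
    (m s : ℕ) (hs : s < k ^ m) (h : GJ t x M J' y' J F (m, s)) :
    ∃ v < k, GJ t x M J' y' J F (m + 1, s + v * k ^ m) := by
  by_contra hcon
  push Not at hcon
  have h1 : ∀ v : Fin k, ∃ m', ∃ Θ ∈ F, ∀ n ≥ m', sh t n x ∈
      (cy (m + 1) (s + v * k ^ m) : Set (ℕ → Fin k)) → (∃ w ∈ M, Ag m' (sh t n x) w) →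
      AgJ J' m' (sh t n x) y' → ∃ θ ∈ Θ, ¬ AgJ J m' (sh t n θ) θ := by
    intro v
    have h2 := hcon v v.2
    unfold GJ at h2
    push Not at h2
    obtain ⟨m', Θ, hΘ, h3⟩ := h2
    exact ⟨m', Θ, hΘ, fun n hn h4 h5 h6 => h3 n hn h4 h5 h6⟩
  choose m' f hf hn using h1
  obtain ⟨Θ, hΘ, hsub⟩ := hF f hf
  obtain ⟨n, hn1, hn2, ⟨w, hw, hn3⟩, hnJ, hn4⟩ := h (Finset.univ.sup m' + (m + 1)) Θ hΘ
  obtain ⟨v, hv⟩ : ∃ v, v = sh t n x m := ⟨_, rfl⟩
  have hmv : m' v ≤ Finset.univ.sup m' + (m + 1) :=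
    (Finset.le_sup (f := m') (Finset.mem_univ v)).trans (Nat.le_add_right _ _)
  obtain ⟨θ, hθ, h6⟩ := hn v n (hmv.trans hn1) ((mem_cy_app hs v.2).2 ⟨hn2, by rw [hv]⟩)
    ⟨w, hw, hn3.mono hmv⟩ (hnJ.mono hmv)
  exact h6 ((hn4 θ (hsub v hθ)).mono hmv)

/-! ### complexity -/

section Comp

variable {α : Type} [Primcodable α]

theorem LP_agJ {a : ℕ} (ht : Computable t) {J : Set ℕ} (hJ : LP 0 (fun i => i ∈ J))
    {u v : ℕ → Fin k} (hu : Lim a u) (hv : Lim a v) {f g : α → ℕ} (hf : Lim a f)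
    (hg : Lim a g) : LP a (fun b => AgJ J (g b) (sh t (f b) u) v) := by
  have h1 : LP a (fun b => ∀ i < g b, i ∈ J → ((sh t (f b) u i : Fin k) : ℕ) = (v i : ℕ)) :=
    LP.ball (P := fun q : α × ℕ => q.2 ∈ J → ((sh t (f q.1) u q.2 : Fin k) : ℕ) = (v q.2 : ℕ))
      (LP.imp ((hJ.mono (Nat.zero_le a)).comp (Lim.of_computable a Computable.snd))
      (LP.eq (Lim.sh ht hu (hf.comp_left Computable.fst) (Lim.of_computable a Computable.snd))
        (Lim.compc comp_val (hv.comp (Lim.of_computable a Computable.snd))))) hg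
  refine h1.congr fun b => ?_
  constructor
  · intro h i hi hJi
    rw [h i hi hJi]
  · intro h i hi hJi
    exact Fin.ext (h i hi hJi)

theorem LP_near' {a : ℕ} {M : Set (ℕ → Fin k)} (hLM : LP a (LM M)) (ht : Computable t)
    {x : ℕ → Fin k} (hx : Lim a x) {f g : α → ℕ} (hf : Lim a f) (hg : Lim a g) :
    LP a (fun b => ∃ w ∈ M, Ag (g b) (sh t (f b) x) w) := by
  have c : Lim a (fun q : α × ℕ => q.2) := Lim.of_computable a Computable.snd
  have h1 : LP a (fun b => ∃ s < k ^ g b, sh t (f b) x ∈ (cy (g b) s : Set (ℕ → Fin k)) ∧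
      LM M (g b, s)) :=
    LP.bex (P := fun q : α × ℕ => sh t (f q.1) x ∈ (cy (g q.1) q.2 : Set (ℕ → Fin k)) ∧
      LM M (g q.1, q.2)) ((LP.cy ht hx (hf.comp_left Computable.fst) (hg.comp_left Computable.fst)
        c).and (hLM.comp ((hg.comp_left Computable.fst).pair c))) (hg.pow)
  refine h1.congr fun b => ?_
  constructor
  · rintro ⟨w, hw, h⟩
    exact ⟨pc w (g b), pc_lt w _, mem_cy_pc.2 h, w, hw, mem_cy_pc.2 (Ag.refl _ _)⟩
  · rintro ⟨s, -, h2, w, hw, h3⟩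
    refine ⟨w, hw, fun i hi => Fin.ext ?_⟩
    rw [h2 i hi]
    exact (h3 i hi).symm

/-- one point -/
theorem LP_GJ_one {a : ℕ} {M : Set (ℕ → Fin k)} (hLM : LP a (LM M)) (ht : Computable t)
    {x : ℕ → Fin k} (hx : Computable x) {J' J : Set ℕ} (hJ' : LP 0 (fun i => i ∈ J'))
    (hJ : LP 0 (fun i => i ∈ J)) {y' θ : ℕ → Fin k} (hy' : Lim a y') (hθ : Lim a θ) :
    LP (a + 2) (GJ t x M J' y' J {{θ}}) := by
  have hx2 : Lim a x := Lim.of_computable a hx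
  have c1 : Lim a (fun q : ((ℕ × ℕ) × ℕ) × ℕ => q.1.2) :=
    Lim.of_computable a (Computable.snd.comp Computable.fst)
  have c2 : Lim a (fun q : ((ℕ × ℕ) × ℕ) × ℕ => q.2) := Lim.of_computable a Computable.snd
  have c3 : Lim a (fun q : ((ℕ × ℕ) × ℕ) × ℕ => q.1.1.1) :=
    Lim.of_computable a (Computable.fst.comp (Computable.fst.comp Computable.fst))
  have c4 : Lim a (fun q : ((ℕ × ℕ) × ℕ) × ℕ => q.1.1.2) :=
    Lim.of_computable a (Computable.snd.comp (Computable.fst.comp Computable.fst))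
  have h1 : LP a (fun q : ((ℕ × ℕ) × ℕ) × ℕ => q.1.2 ≤ q.2 ∧
      sh t q.2 x ∈ (cy q.1.1.1 q.1.1.2 : Set (ℕ → Fin k)) ∧
      (∃ w ∈ M, Ag q.1.2 (sh t q.2 x) w) ∧ AgJ J' q.1.2 (sh t q.2 x) y' ∧
      AgJ J q.1.2 (sh t q.2 θ) θ) :=
    (LP.le c1 c2).and ((LP.cy ht hx2 c2 c3 c4).and ((LP_near' hLM ht hx2 c2 c1).and
      ((LP_agJ ht hJ' hx2 hy' c2 c1).and (LP_agJ ht hJ hθ hθ c2 c1))))
  refine (h1.ex.all).congr fun p => ?_
  constructor
  · intro h m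
    obtain ⟨n, h2, h3, h4, h5, h6⟩ := h m {θ} rfl
    exact ⟨n, h2, h3, h4, h5, h6 θ rfl⟩
  · intro h m Θ hΘ
    rw [Set.mem_singleton_iff] at hΘ
    obtain ⟨n, h2, h3, h4, h5, h6⟩ := h m
    refine ⟨n, h2, h3, h4, h5, fun θ' hθ' => ?_⟩
    rw [hΘ, Set.mem_singleton_iff] at hθ'
    rw [hθ']
    exact h6

/-- the matrix for finite sets of points of the fibre of `y'` -/
def MatJ (t : ℕ → ℕ) (x : ℕ → Fin k) (M : Set (ℕ → Fin k)) (J' : Set ℕ) (y' : ℕ → Fin k)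
    (J : Set ℕ) (m₀ s₀ m r N K : ℕ) : Prop :=
  m ≤ K ∧ (∀ n < N, ∀ j < m, t^[n] j < K) ∧
    ∀ c < k ^ (r * K), (∀ i < r, (∀ j < K, j ∈ J' → dg k c (i * K + j) = (y' j : ℕ)) ∧
      ∃ s < k ^ K, (∀ j < K, dg k s j = dg k c (i * K + j)) ∧
      LM M (K, s)) → ∃ n < N, m ≤ n ∧ sh t n x ∈ (cy m₀ s₀ : Set (ℕ → Fin k)) ∧
        (∃ w ∈ M, Ag m (sh t n x) w) ∧ AgJ J' m (sh t n x) y' ∧
        ∀ i < r, ∀ j < m, j ∈ J → dg k c (i * K + t^[n] j) = dg k c (i * K + j)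

theorem LP_MatJ {a : ℕ} {M : Set (ℕ → Fin k)} (hLM : LP a (LM M)) (ht : Computable t)
    {x : ℕ → Fin k} (hx : Lim a x) {J' J : Set ℕ} (hJ' : LP 0 (fun i => i ∈ J'))
    (hJ : LP 0 (fun i => i ∈ J)) {y' : ℕ → Fin k} (hy' : Lim a y')
    {m₀ s₀ m r N K : α → ℕ} (h₁ : Lim a m₀) (h₂ : Lim a s₀) (h₃ : Lim a m)
    (h₄ : Lim a r) (h₅ : Lim a N) (h₆ : Lim a K) :
    LP a (fun b => MatJ t x M J' y' J (m₀ b) (s₀ b) (m b) (r b) (N b) (K b)) := by
  have up : ∀ {β : Type} [Primcodable β] {f : β → ℕ}, Lim a f → Lim a (fun q : β × ℕ => f q.1) :=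
    fun h => h.comp_left Computable.fst
  have z : ∀ {β : Type} [Primcodable β], Lim a (fun q : β × ℕ => q.2) :=
    Lim.of_computable a Computable.snd
  refine (LP.le h₃ h₆).and (LP.and ?_ ?_)
  · refine LP.ball (P := fun q : α × ℕ => ∀ j < m q.1, t^[q.2] j < K q.1) ?_ h₅
    refine LP.ball (P := fun q : (α × ℕ) × ℕ => t^[q.1.2] q.2 < K q.1.1) ?_ (up h₃)
    exact LP.lt (Lim.iter ht (up z) z) (up (up h₆))
  · refine LP.ball (P := fun q : α × ℕ => (∀ i < r q.1,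
      (∀ j < K q.1, j ∈ J' → dg k q.2 (i * K q.1 + j) = (y' j : ℕ)) ∧ ∃ s < k ^ K q.1,
      (∀ j < K q.1, dg k s j = dg k q.2 (i * K q.1 + j)) ∧ LM M (K q.1, s)) →
      ∃ n < N q.1, m q.1 ≤ n ∧ sh t n x ∈ (cy (m₀ q.1) (s₀ q.1) : Set (ℕ → Fin k)) ∧
        (∃ w ∈ M, Ag (m q.1) (sh t n x) w) ∧ AgJ J' (m q.1) (sh t n x) y' ∧
        ∀ i < r q.1, ∀ j < m q.1, j ∈ J →
          dg k q.2 (i * K q.1 + t^[n] j) = dg k q.2 (i * K q.1 + j)) ?_ ((h₄.mul h₆).pow)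
    refine LP.imp ?_ ?_
    · refine LP.ball (P := fun q : (α × ℕ) × ℕ =>
        (∀ j < K q.1.1, j ∈ J' → dg k q.1.2 (q.2 * K q.1.1 + j) = (y' j : ℕ)) ∧
        ∃ s < k ^ K q.1.1,
        (∀ j < K q.1.1, dg k s j = dg k q.1.2 (q.2 * K q.1.1 + j)) ∧ LM M (K q.1.1, s)) ?_ (up h₄)
      refine LP.and ?_ ?_
      · refine LP.ball (P := fun q : ((α × ℕ) × ℕ) × ℕ => q.2 ∈ J' →
          dg k q.1.1.2 (q.1.2 * K q.1.1.1 + q.2) = (y' q.2 : ℕ)) ?_ (up (up h₆))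
        refine LP.imp ((hJ'.mono (Nat.zero_le a)).comp z) (LP.eq ?_
          (Lim.compc comp_val (hy'.comp z)))
        exact Lim.dg (up (up z)) (((up z).mul (up (up (up h₆)))).add z)
      · refine LP.bex (P := fun q : ((α × ℕ) × ℕ) × ℕ =>
          (∀ j < K q.1.1.1, dg k q.2 j = dg k q.1.1.2 (q.1.2 * K q.1.1.1 + j)) ∧
            LM M (K q.1.1.1, q.2)) ?_ (up (up h₆)).pow
        refine LP.and ?_ (hLM.comp ((up (up (up h₆))).pair z))
        refine LP.ball (P := fun q : (((α × ℕ) × ℕ) × ℕ) × ℕ =>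
          dg k q.1.2 q.2 = dg k q.1.1.1.2 (q.1.1.2 * K q.1.1.1.1 + q.2)) ?_ (up (up (up h₆)))
        exact LP.eq (Lim.dg (up z) z) (Lim.dg (up (up (up z)))
          (((up (up z)).mul (up (up (up (up h₆))))).add z))
    · refine LP.bex (P := fun q : (α × ℕ) × ℕ => m q.1.1 ≤ q.2 ∧
        sh t q.2 x ∈ (cy (m₀ q.1.1) (s₀ q.1.1) : Set (ℕ → Fin k)) ∧
        (∃ w ∈ M, Ag (m q.1.1) (sh t q.2 x) w) ∧ AgJ J' (m q.1.1) (sh t q.2 x) y' ∧
        ∀ i < r q.1.1, ∀ j < m q.1.1, j ∈ J →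
          dg k q.1.2 (i * K q.1.1 + t^[q.2] j) = dg k q.1.2 (i * K q.1.1 + j)) ?_ (up h₅)
      refine (LP.le (up (up h₃)) z).and ((LP.cy ht hx z (up (up h₁)) (up (up h₂))).and
        ((LP_near' hLM ht hx z (up (up h₃))).and ((LP_agJ ht hJ' hx hy' z (up (up h₃))).and ?_)))
      refine LP.ball (P := fun q : ((α × ℕ) × ℕ) × ℕ => ∀ j < m q.1.1.1, j ∈ J →
        dg k q.1.1.2 (q.2 * K q.1.1.1 + t^[q.1.2] j) = dg k q.1.1.2 (q.2 * K q.1.1.1 + j)) ?_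
        (up (up h₄))
      refine LP.ball (P := fun q : (((α × ℕ) × ℕ) × ℕ) × ℕ => q.2 ∈ J →
        dg k q.1.1.1.2 (q.1.2 * K q.1.1.1.1 + t^[q.1.1.2] q.2) =
          dg k q.1.1.1.2 (q.1.2 * K q.1.1.1.1 + q.2)) ?_ (up (up (up h₃)))
      have e1 : Lim a (fun q : (((α × ℕ) × ℕ) × ℕ) × ℕ => q.1.1.1.2) := up (up (up z))
      have e2 : Lim a (fun q : (((α × ℕ) × ℕ) × ℕ) × ℕ => q.1.2 * K q.1.1.1.1) :=
        (up z).mul (up (up (up (up h₆))))
      exact LP.imp ((hJ.mono (Nat.zero_le a)).comp z)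
        (LP.eq (Lim.dg e1 (e2.add (Lim.iter ht (up (up z)) z))) (Lim.dg e1 (e2.add z)))

end Comp

/-- the fibre of `y'` -/
def Fib (M : Set (ℕ → Fin k)) (J' : Set ℕ) (y' : ℕ → Fin k) : Set (ℕ → Fin k) :=
  {z | z ∈ M ∧ AgE J' z y'}

theorem isClosed_fib {M : Set (ℕ → Fin k)} (hM : IsClosed M) (J' : Set ℕ) (y' : ℕ → Fin k) :
    IsClosed (Fib M J' y') := by
  have h1 : Fib M J' y' = M ∩ ⋂ i ∈ J', {z | z i = y' i} := by
    ext z
    simp only [Set.mem_inter_iff, Set.mem_iInter]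
    rfl
  rw [h1]
  exact hM.inter (isClosed_biInter fun i _ => isClosed_eq (continuous_apply i) continuous_const)

/-- compactness: a clopen cover of `Fib ^ r` covers the points of `M ^ r` close to the fibre -/
theorem fib_compact {M : Set (ℕ → Fin k)} (hM : IsClosed M) (J' : Set ℕ) (y' : ℕ → Fin k) (r : ℕ)
    (V : Set (Fin r → ℕ → Fin k)) (hV : IsOpen V)
    (h : ∀ Θ : Fin r → ℕ → Fin k, (∀ i, Θ i ∈ Fib M J' y') → Θ ∈ V) :
    ∃ K, ∀ K' ≥ K, ∀ Θ : Fin r → ℕ → Fin k, (∀ i, Θ i ∈ M ∧ AgJ J' K' (Θ i) y') → Θ ∈ V := by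
  by_contra hcon
  push Not at hcon
  have hcl : ∀ j, IsClosed {Θ : Fin r → ℕ → Fin k | (∀ i, Θ i ∈ M ∧ AgJ J' j (Θ i) y') ∧ Θ ∉ V} := by
    intro j
    have h1 : {Θ : Fin r → ℕ → Fin k | (∀ i, Θ i ∈ M ∧ AgJ J' j (Θ i) y') ∧ Θ ∉ V} =
        (⋂ i, ((fun Θ : Fin r → ℕ → Fin k => Θ i) ⁻¹' M ∩
          ⋂ l, ⋂ (_ : l < j), ⋂ (_ : l ∈ J'), {Θ : Fin r → ℕ → Fin k | Θ i l = y' l})) ∩ Vᶜ := by
      ext Θ
      simp only [Set.mem_inter_iff, Set.mem_iInter]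
      rfl
    rw [h1]
    refine IsClosed.inter (isClosed_iInter fun i => IsClosed.inter
      (hM.preimage (continuous_apply i)) ?_) hV.isClosed_compl
    exact isClosed_iInter fun l => isClosed_iInter fun _ => isClosed_iInter fun _ =>
      isClosed_eq ((continuous_apply l).comp (continuous_apply i)) continuous_const
  have h1 := IsCompact.nonempty_iInter_of_sequence_nonempty_isCompact_isClosed
    (fun j : ℕ => {Θ : Fin r → ℕ → Fin k | (∀ i, Θ i ∈ M ∧ AgJ J' j (Θ i) y') ∧ Θ ∉ V})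
    (fun j Θ hΘ => ⟨fun i => ⟨(hΘ.1 i).1, (hΘ.1 i).2.mono (Nat.le_succ j)⟩, hΘ.2⟩)
    (fun j => by
      obtain ⟨K', hK', Θ, hΘ, hΘV⟩ := hcon j
      exact ⟨Θ, fun i => ⟨(hΘ i).1, (hΘ i).2.mono hK'⟩, hΘV⟩)
    (hcl 0).isCompact hcl
  obtain ⟨Θ, hΘ⟩ := h1
  rw [Set.mem_iInter] at hΘ
  refine (hΘ 0).2 (h Θ fun i => ⟨((hΘ 0).1 i).1, agE_of_agJ fun m => ((hΘ m).1 i).2⟩)

theorem GJ_iff_MatJ (x : ℕ → Fin k) {M : Set (ℕ → Fin k)} (hM : IsClosed M) (J' : Set ℕ)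
    (y' : ℕ → Fin k) (J : Set ℕ) (p : ℕ × ℕ) :
    GJ t x M J' y' J {Θ | Θ.Finite ∧ Θ ⊆ Fib M J' y'} p ↔
      ∀ a : ℕ, ∃ q : ℕ, MatJ t x M J' y' J p.1 p.2 a.unpair.1 a.unpair.2
        q.unpair.1 q.unpair.2 := by
  constructor
  · intro h a
    generalize a.unpair.1 = m
    generalize a.unpair.2 = r
    -- compactness
    have hcomp : IsCompact {Θ : Fin r → ℕ → Fin k | ∀ i, Θ i ∈ Fib M J' y'} := by
      refine IsClosed.isCompact ?_
      have h1 : {Θ : Fin r → ℕ → Fin k | ∀ i, Θ i ∈ Fib M J' y'} =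
          ⋂ i, (fun Θ : Fin r → ℕ → Fin k => Θ i) ⁻¹' (Fib M J' y') := by
        ext Θ
        simp only [Set.mem_iInter]
        rfl
      rw [h1]
      exact isClosed_iInter fun i => (isClosed_fib hM J' y').preimage (continuous_apply i)
    obtain ⟨V, hV⟩ : ∃ V : ℕ → Set (Fin r → ℕ → Fin k), V = fun N => {Θ | ∃ n < N, m ≤ n ∧
        sh t n x ∈ (cy p.1 p.2 : Set (ℕ → Fin k)) ∧ (∃ w ∈ M, Ag m (sh t n x) w) ∧
        AgJ J' m (sh t n x) y' ∧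
        ∀ i, ∀ j < m, j ∈ J → Θ i (t^[n] j) = Θ i j} := ⟨_, rfl⟩
    have hVo : ∀ N, IsOpen (V N) := by
      intro N
      have h1 : V N =
          ⋃ n, ⋃ (_ : n < N ∧ m ≤ n ∧ sh t n x ∈ (cy p.1 p.2 : Set (ℕ → Fin k)) ∧
            (∃ w ∈ M, Ag m (sh t n x) w) ∧ AgJ J' m (sh t n x) y'), ⋂ i : Fin r,
              {Θ : Fin r → ℕ → Fin k | ∀ j < m, j ∈ J → Θ i (t^[n] j) = Θ i j} := by
        ext Θ
        rw [hV]
        simp only [Set.mem_iUnion, Set.mem_iInter, exists_prop]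
        constructor
        · rintro ⟨n, h1, h2, h3, h4, h5, h6⟩
          exact ⟨n, ⟨h1, h2, h3, h4, h5⟩, h6⟩
        · rintro ⟨n, ⟨h1, h2, h3, h4, h5⟩, h6⟩
          exact ⟨n, h1, h2, h3, h4, h5, h6⟩
      rw [h1]
      refine isOpen_iUnion fun n => isOpen_iUnion fun _ => isOpen_iInter_of_finite fun i => ?_
      refine isOpen_ball (P := fun j (Θ : Fin r → ℕ → Fin k) => j ∈ J → Θ i (t^[n] j) = Θ i j) m
        fun j => ?_
      by_cases hj : j ∈ J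
      · have h2 : {Θ : Fin r → ℕ → Fin k | j ∈ J → Θ i (t^[n] j) = Θ i j} =
            {Θ : Fin r → ℕ → Fin k | Θ i (t^[n] j) = Θ i j} := by
          ext Θ
          exact ⟨fun h3 => h3 hj, fun h3 _ => h3⟩
        rw [h2]
        exact isOpen_eq ((continuous_apply _).comp (continuous_apply i))
          ((continuous_apply _).comp (continuous_apply i))
      · have h2 : {Θ : Fin r → ℕ → Fin k | j ∈ J → Θ i (t^[n] j) = Θ i j} = Set.univ := by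
          ext Θ
          exact ⟨fun _ => trivial, fun _ h3 => absurd h3 hj⟩
        rw [h2]
        exact isOpen_univ
    have hVc : {Θ : Fin r → ℕ → Fin k | ∀ i, Θ i ∈ Fib M J' y'} ⊆ ⋃ N, V N := by
      intro Θ hΘ
      obtain ⟨n, h1, h2, h3, h4, h5⟩ := h m (Set.range Θ)
        ⟨Set.finite_range Θ, by rintro _ ⟨i, rfl⟩; exact hΘ i⟩
      rw [Set.mem_iUnion, hV]
      exact ⟨n + 1, n, Nat.lt_succ_self n, h1, h2, h3, h4, fun i j hj hJ => h5 _ ⟨i, rfl⟩ j hj hJ⟩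
    have hVd : Directed (· ⊆ ·) V := by
      refine Monotone.directed_le fun N N' hNN' => ?_
      rw [hV]
      rintro Θ ⟨n, h1, h2⟩
      exact ⟨n, lt_of_lt_of_le h1 hNN', h2⟩
    obtain ⟨N, hN⟩ := hcomp.elim_directed_cover V hVo hVc hVd
    obtain ⟨K₁, hK₁⟩ := fib_compact hM J' y' r (V N) (hVo N) fun Θ hΘ => hN hΘ
    obtain ⟨K₂, hK2, hK3⟩ := exists_mod t m N
    refine ⟨Nat.pair N (max K₁ K₂), ?_⟩
    rw [Nat.unpair_pair]
    refine ⟨hK2.trans (le_max_right _ _), fun n hn j hj =>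
      lt_of_lt_of_le (hK3 n hn j hj) (le_max_right _ _), fun c hc hc' => ?_⟩
    obtain ⟨K, hK⟩ : ∃ K, K = max K₁ K₂ := ⟨_, rfl⟩
    change ∀ i < r, (∀ j < max K₁ K₂, j ∈ J' → dg k c (i * max K₁ K₂ + j) = (y' j : ℕ)) ∧
      ∃ s < k ^ max K₁ K₂, (∀ j < max K₁ K₂, dg k s j = dg k c (i * max K₁ K₂ + j)) ∧
        LM M (max K₁ K₂, s) at hc'
    change ∃ n < N, m ≤ n ∧ sh t n x ∈ (cy p.1 p.2 : Set (ℕ → Fin k)) ∧
        (∃ w ∈ M, Ag m (sh t n x) w) ∧ AgJ J' m (sh t n x) y' ∧ ∀ i < r, ∀ j < m, j ∈ J →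
          dg k c (i * max K₁ K₂ + t^[n] j) = dg k c (i * max K₁ K₂ + j)
    have hKK : K₁ ≤ K := hK ▸ le_max_left _ _
    have hKK2 : K₂ ≤ K := hK ▸ le_max_right _ _
    rw [← hK] at hc' ⊢
    have h2 : ∀ i : Fin r, ∃ z ∈ M, ∀ j < K, (z j : ℕ) = dg k c (i * K + j) := by
      intro i
      obtain ⟨-, s, -, h3, z, hz, h4⟩ := hc' i i.2
      refine ⟨z, hz, fun j hj => ?_⟩
      rw [← h3 j hj]
      exact h4 j hj
    choose z hz hzd using h2
    have h6 : z ∈ V N := by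
      refine hK₁ K hKK z fun i => ⟨hz i, fun j hj hJ => Fin.ext ?_⟩
      rw [hzd i j hj]
      exact (hc' i i.2).1 j hj hJ
    rw [hV] at h6
    obtain ⟨n, hn, hmn, h3, h4, h4', h5⟩ := h6
    refine ⟨n, hn, hmn, h3, h4, h4', fun i hi j hj hJ => ?_⟩
    rw [← hzd ⟨i, hi⟩ _ (lt_of_lt_of_le (hK3 n hn j hj) hKK2),
      ← hzd ⟨i, hi⟩ j (lt_of_lt_of_le hj (hK2.trans hKK2))]
    exact congrArg Fin.val (h5 ⟨i, hi⟩ j hj hJ)
  · intro h m Θ hΘ
    obtain ⟨r, f, hf⟩ := hΘ.1.fin_embedding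
    obtain ⟨q, hq⟩ := h (Nat.pair m r)
    rw [Nat.unpair_pair] at hq
    obtain ⟨h1, h2, h3⟩ := hq
    generalize q.unpair.1 = N at h1 h2 h3
    generalize q.unpair.2 = K at h1 h2 h3
    obtain ⟨W, hW⟩ : ∃ W : ℕ → Fin k, W = fun a =>
        if h : a / K < r then f ⟨a / K, h⟩ (a % K) else x 0 := ⟨_, rfl⟩
    have hWij : ∀ i (hi : i < r), ∀ j < K, W (i * K + j) = f ⟨i, hi⟩ j := by
      intro i hi j hj
      have hK : 0 < K := by omega
      have e1 : (i * K + j) / K = i := by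
        rw [mul_comm, Nat.mul_add_div hK, Nat.div_eq_of_lt hj, add_zero]
      have e2 : (i * K + j) % K = j := by
        rw [mul_comm, Nat.mul_add_mod, Nat.mod_eq_of_lt hj]
      rw [hW]
      change (if h : (i * K + j) / K < r then f ⟨(i * K + j) / K, h⟩ ((i * K + j) % K) else x 0) = _
      rw [dif_pos (by rw [e1]; exact hi)]
      have e3 : (⟨(i * K + j) / K, by rw [e1]; exact hi⟩ : Fin r) = ⟨i, hi⟩ := Fin.ext e1
      rw [e3, e2]
    have hdg : ∀ i (hi : i < r), ∀ j < K, dg k (pc W (r * K)) (i * K + j) = f ⟨i, hi⟩ j := by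
      intro i hi j hj
      rw [dg_pc W, hWij i hi j hj]
      calc i * K + j < i * K + K := by omega
        _ = (i + 1) * K := by ring
        _ ≤ r * K := Nat.mul_le_mul_right _ hi
    have hfF : ∀ i, f i ∈ Fib M J' y' := fun i => hΘ.2 (hf ▸ Set.mem_range_self i)
    obtain ⟨n, hn, hmn, h4, h5, h5', h6⟩ := h3 (pc W (r * K)) (pc_lt W _) (fun i hi => by
      refine ⟨fun j hj hJ => ?_, pc (f ⟨i, hi⟩) K, pc_lt _ _, fun j hj => ?_, f ⟨i, hi⟩, ?_,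
        mem_cy_pc.2 (Ag.refl _ _)⟩
      · rw [hdg i hi j hj, (hfF ⟨i, hi⟩).2 j hJ]
      · rw [hdg i hi j hj, dg_pc _ hj]
      · exact (hfF ⟨i, hi⟩).1)
    refine ⟨n, hmn, h4, h5, h5', fun θ hθ => ?_⟩
    rw [← hf] at hθ
    obtain ⟨i, rfl⟩ := hθ
    intro j hj hJ
    apply Fin.ext
    have h7 := h6 i i.2 j hj hJ
    rw [hdg i i.2 _ (h2 n hn j hj), hdg i i.2 j (lt_of_lt_of_le hj h1)] at h7
    exact h7

theorem LP_GJ_fin {a : ℕ} {M : Set (ℕ → Fin k)} (hM : IsClosed M) (hLM : LP a (LM M))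
    (ht : Computable t) {x : ℕ → Fin k} (hx : Computable x) {J' J : Set ℕ}
    (hJ' : LP 0 (fun i => i ∈ J')) (hJ : LP 0 (fun i => i ∈ J)) {y' : ℕ → Fin k}
    (hy' : Lim a y') : LP (a + 2) (GJ t x M J' y' J {Θ | Θ.Finite ∧ Θ ⊆ Fib M J' y'}) := by
  have c1 : Lim a (fun q : ((ℕ × ℕ) × ℕ) × ℕ => q.1.2) :=
    Lim.of_computable a (Computable.snd.comp Computable.fst)
  have c2 : Lim a (fun q : ((ℕ × ℕ) × ℕ) × ℕ => q.2) := Lim.of_computable a Computable.snd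
  have c3 : Lim a (fun q : ((ℕ × ℕ) × ℕ) × ℕ => q.1.1.1) :=
    Lim.of_computable a (Computable.fst.comp (Computable.fst.comp Computable.fst))
  have c4 : Lim a (fun q : ((ℕ × ℕ) × ℕ) × ℕ => q.1.1.2) :=
    Lim.of_computable a (Computable.snd.comp (Computable.fst.comp Computable.fst))
  have h1 := LP_MatJ (α := ((ℕ × ℕ) × ℕ) × ℕ) hLM ht (Lim.of_computable a hx) hJ' hJ hy' c3 c4
    c1.unpair₁ c1.unpair₂ c2.unpair₁ c2.unpair₂
  exact (h1.ex.all).congr fun p => GJ_iff_MatJ x hM J' y' J p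

/-! ### steps -/

/-- the restriction of `M` to `J` is a distal extension of the restriction to `J'` -/
def RelDistal (t : ℕ → ℕ) (M : Set (ℕ → Fin k)) (J' J : Set ℕ) : Prop :=
  ∀ z ∈ M, ∀ w ∈ M, AgE J' z w → ProxOn t J z w → AgE J z w

/-- the restriction of `M` to `J` is a proximal extension of the restriction to `J'` -/
def RelProximal (t : ℕ → ℕ) (M : Set (ℕ → Fin k)) (J' J : Set ℕ) : Prop :=
  ∀ z ∈ M, ∀ w ∈ M, AgE J' z w → ProxOn t J z w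

/-- `y` is a solution on `J` -/
def SolOn (t : ℕ → ℕ) (x : ℕ → Fin k) (M : Set (ℕ → Fin k)) (J : Set ℕ) (y : ℕ → Fin k) : Prop :=
  y ∈ M ∧ ∃ U : Ultrafilter ℕ, Late U ∧ act t U x ∈ M ∧ AgE J (act t U x) y ∧
    AgE J (act t U y) y

theorem Late.add {U V : Ultrafilter ℕ} (hV : Late V) : Late (U + V) := by
  intro N
  rw [Ultrafilter.eventually_add]
  filter_upwards with m
  filter_upwards [hV N] with m' hm'
  omega

theorem step_distal {a : ℕ} (ht : Computable t) {x : ℕ → Fin k} (hx : Computable x)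
    {M : Set (ℕ → Fin k)} (hM : MinimalSet t M) (hLM : LP a (LM M)) {J' J : Set ℕ}
    (hJ' : LP 0 (fun i => i ∈ J')) (hJ : LP 0 (fun i => i ∈ J)) (hJ'c : ∀ i ∈ J', t i ∈ J')
    {y' : ℕ → Fin k} (hy' : Lim a y') (hs : SolOn t x M J' y')
    (hd : RelDistal t M J' J) : ∃ y, Lim (a + 2) y ∧ SolOn t x M J y := by
  obtain ⟨hyM', hne⟩ := hs
  obtain ⟨U, hU, hUx, hUxy, hUy, hUi⟩ := exists_idemJ hM.closed hM.inv x y' hJ'c hne
  have hfix : ∀ θ ∈ Fib M J' y', AgE J (act t U θ) θ := by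
    rintro θ ⟨hθ, hθy⟩
    have h1 : act t U θ ∈ M := act_mem hM.closed hM.inv U hθ
    have h2 : AgE J' (act t U θ) θ := ((act_agE hJ'c U hθy).trans hUy).trans hθy.symm
    have h3 : Prox t θ (act t U θ) := hU.idem (hUi θ)
    exact (hd θ hθ _ h1 h2.symm fun m N => by
      obtain ⟨n, h4, h5⟩ := h3 m N
      exact ⟨n, h4, h5.agJ J⟩).symm
  have h0 : GJ t x M J' y' J {Θ | Θ.Finite ∧ Θ ⊆ Fib M J' y'} (0, 0) :=
    GJ_zero x M J' y' J _ (fun Θ hΘ => hΘ.1) U hU hUx hUxy fun Θ hΘ θ hθ => hfix θ (hΘ.2 hθ)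
  have hdir : ∀ f : Fin k → Set (ℕ → Fin k),
      (∀ v, f v ∈ {Θ : Set (ℕ → Fin k) | Θ.Finite ∧ Θ ⊆ Fib M J' y'}) →
      ∃ Θ ∈ {Θ : Set (ℕ → Fin k) | Θ.Finite ∧ Θ ⊆ Fib M J' y'}, ∀ v, f v ⊆ Θ := fun f hf =>
    ⟨⋃ v, f v, ⟨Set.finite_iUnion fun v => (hf v).1, Set.iUnion_subset fun v => (hf v).2⟩,
      fun v => Set.subset_iUnion f v⟩
  obtain ⟨y, hyL, hy⟩ := exists_path (pos_of_point x)
    (LP_GJ_fin hM.closed hLM ht hx hJ' hJ hy') h0
    fun m s hs h => GJ_succ x M J' y' J _ hdir m s hs h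
  have hemp : (∅ : Set (ℕ → Fin k)) ∈ {Θ : Set (ℕ → Fin k) | Θ.Finite ∧ Θ ⊆ Fib M J' y'} :=
    ⟨Set.finite_empty, Set.empty_subset _⟩
  have hyM : y ∈ M := by
    refine mem_of_ag hM.closed fun m => ?_
    obtain ⟨n, -, h1, ⟨w, hw, h2⟩, -, -⟩ := hy m m ∅ hemp
    exact ⟨w, hw, h2.symm.trans (mem_cy_pc.1 h1)⟩
  have hyy' : AgE J' y y' := by
    refine agE_of_agJ fun m => ?_
    obtain ⟨n, -, h1, -, h2, -⟩ := hy m m ∅ hemp
    exact ((mem_cy_pc.1 h1).agJ J').symm.trans h2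
  refine ⟨y, hyL, hyM, ?_⟩
  obtain ⟨W, hW, hWP⟩ := exists_late (fun m n => Ag m (sh t n x) y ∧ AgJ J m (sh t n y) y)
    (fun m m' hm n h => ⟨h.1.mono hm, h.2.mono hm⟩) (by
      intro m
      obtain ⟨n, h1, h2, -, -, h3⟩ := hy m m {y}
        ⟨Set.finite_singleton y, Set.singleton_subset_iff.2 ⟨hyM, hyy'⟩⟩
      exact ⟨n, h1, mem_cy_pc.1 h2, h3 y rfl⟩)
  have h1 : act t W x = y := act_eq fun m => (hWP m).mono fun n h => h.1
  refine ⟨W, hW, by rw [h1]; exact hyM, by rw [h1]; exact fun i _ => rfl, ?_⟩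
  exact agE_act fun m => (hWP m).mono fun n h => h.2

theorem step_proximal {a : ℕ} (ht : Computable t) {x : ℕ → Fin k} (hx : Computable x)
    {M : Set (ℕ → Fin k)} (hM : MinimalSet t M) (hLM : LP a (LM M)) {J' J : Set ℕ}
    (hJ' : LP 0 (fun i => i ∈ J')) (hJ'c : ∀ i ∈ J', t i ∈ J')
    (hJc : ∀ i ∈ J, t i ∈ J)
    {y' : ℕ → Fin k} (hy' : Lim a y') (hs : SolOn t x M J' y')
    (hd : RelProximal t M J' J) : ∃ y, Lim (a + 2) y ∧ SolOn t x M J y := by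
  obtain ⟨hyM', U, hU, hUx, hUxy, hUy⟩ := hs
  have h0 : GJ t x M J' y' J' {{y'}} (0, 0) := by
    refine GJ_zero x M J' y' J' {{y'}} ?_ U hU hUx hUxy ?_
    · intro Θ hΘ
      rw [Set.mem_singleton_iff] at hΘ
      rw [hΘ]
      exact Set.finite_singleton y'
    · intro Θ hΘ θ hθ
      rw [Set.mem_singleton_iff] at hΘ
      rw [hΘ, Set.mem_singleton_iff] at hθ
      rw [hθ]
      exact hUy
  have hdir : ∀ f : Fin k → Set (ℕ → Fin k), (∀ v, f v ∈ ({{y'}} : Set (Set (ℕ → Fin k)))) →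
      ∃ Θ ∈ ({{y'}} : Set (Set (ℕ → Fin k))), ∀ v, f v ⊆ Θ := fun f hf =>
    ⟨{y'}, rfl, fun v => by
      have := hf v
      rw [Set.mem_singleton_iff] at this
      rw [this]⟩
  obtain ⟨y, hyL, hy⟩ := exists_path (pos_of_point x)
    (LP_GJ_one hLM ht hx hJ' hJ' hy' hy') h0
    fun m s hs h => GJ_succ x M J' y' J' _ hdir m s hs h
  have hyM : y ∈ M := by
    refine mem_of_ag hM.closed fun m => ?_
    obtain ⟨n, -, h1, ⟨w, hw, h2⟩, -, -⟩ := hy m m {y'} rfl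
    exact ⟨w, hw, h2.symm.trans (mem_cy_pc.1 h1)⟩
  have hyy' : AgE J' y y' := by
    refine agE_of_agJ fun m => ?_
    obtain ⟨n, -, h1, -, h2, -⟩ := hy m m {y'} rfl
    exact ((mem_cy_pc.1 h1).agJ J').symm.trans h2
  refine ⟨y, hyL, hyM, ?_⟩
  obtain ⟨W, hW, hWP⟩ := exists_late (fun m n => Ag m (sh t n x) y ∧ AgJ J' m (sh t n y') y')
    (fun m m' hm n h => ⟨h.1.mono hm, h.2.mono hm⟩) (by
      intro m
      obtain ⟨n, h1, h2, -, -, h3⟩ := hy m m {y'} rfl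
      exact ⟨n, h1, mem_cy_pc.1 h2, h3 y' rfl⟩)
  have hWx : act t W x = y := act_eq fun m => (hWP m).mono fun n h => h.1
  have hWy' : AgE J' (act t W y') y' := agE_act fun m => (hWP m).mono fun n h => h.2
  have hWy : AgE J' y (act t W y) := hyy'.trans (((act_agE hJ'c W hyy').trans hWy').symm)
  have hWM : act t W y ∈ M := act_mem hM.closed hM.inv W hyM
  have hprox := hd y hyM _ hWM hWy
  -- an ultrafilter which identifies `y` and `W y` on `J`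
  obtain ⟨R, hR, hRP⟩ := exists_late (fun m n => AgJ J m (sh t n y) (sh t n (act t W y)))
    (fun m m' hm n h => h.mono hm) (fun m => hprox m m)
  have hRy : AgE J (act t R y) (act t R (act t W y)) := by
    intro i hi
    obtain ⟨n, ⟨h1, h2⟩, h3⟩ := ((act_ev (t := t) R y i).and
      (act_ev (t := t) R (act t W y) i)).and (hRP (i + 1)) |>.exists
    rw [← h1, ← h2]
    exact h3 i (Nat.lt_succ_self i) hi
  have hRM : act t R y ∈ M := act_mem hM.closed hM.inv R hyM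
  -- return to `y`
  obtain ⟨Q, -, hQ⟩ := exists_late_mem (t := t) (x := act t R y) (z := y) (by
    intro m N
    obtain ⟨n, hn⟩ := hM.dense _ (inv_sh hM.inv N hRM) y hyM m
    refine ⟨n + N, by omega, ?_⟩
    rw [sh_add]
    exact hn)
  refine ⟨(Q + R) + W, hW.add, ?_, ?_, ?_⟩
  · rw [act_add, hWx, act_add, hQ]
    exact hyM
  · rw [act_add, hWx, act_add, hQ]
    exact fun i _ => rfl
  · rw [act_add, act_add]
    have h1 := act_agE hJc Q hRy.symm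
    rw [hQ] at h1
    exact h1

/-- a tower of height `h` -/
def TowerOn (t : ℕ → ℕ) (M : Set (ℕ → Fin k)) (h : ℕ) (J : ℕ → Set ℕ) : Prop :=
  J 0 = ∅ ∧ J h = Set.univ ∧ (∀ i ≤ h, LP 0 (fun j => j ∈ J i)) ∧
    (∀ i ≤ h, ∀ j ∈ J i, t j ∈ J i) ∧
    ∀ i < h, RelDistal t M (J i) (J (i + 1)) ∨ RelProximal t M (J i) (J (i + 1))

theorem case_tower (ht : Computable t) {x : ℕ → Fin k} (hx : Computable x)
    {M : Set (ℕ → Fin k)} (hM : MinimalSet t M) (hLM : LP 2 (LM M))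
    (hl : ∀ z ∈ M, ∀ m N, ∃ n ≥ N, Ag m (sh t n x) z) (h : ℕ) (J : ℕ → Set ℕ)
    (hT : TowerOn t M h J) : ∃ y ∈ M, Prox t x y ∧ Lim (2 + 2 * h) y := by
  obtain ⟨hJ0, hJh, hJL, hJc, hstep⟩ := hT
  have key : ∀ i ≤ h, ∃ y, Lim (2 + 2 * i) y ∧ SolOn t x M (J i) y := by
    intro i
    induction i with
    | zero =>
      intro _
      obtain ⟨θ, hθ, hθL⟩ := exists_point x hM hLM
      obtain ⟨U₀, hU₀, hx₀⟩ := exists_late_mem (hl θ hθ)
      refine ⟨θ, hθL, hθ, U₀, hU₀, by rw [hx₀]; exact hθ, ?_, ?_⟩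
      · rw [hJ0]
        exact fun i hi => absurd hi (Set.notMem_empty i)
      · rw [hJ0]
        exact fun i hi => absurd hi (Set.notMem_empty i)
    | succ i ih =>
      intro hi
      obtain ⟨y', hy'L, hy'⟩ := ih (by omega)
      have hLM' : LP (2 + 2 * i) (LM M) := hLM.mono (by omega)
      have hlev : 2 + 2 * (i + 1) = 2 + 2 * i + 2 := by omega
      rw [hlev]
      rcases hstep i (by omega) with h1 | h1
      · exact step_distal ht hx hM hLM' (hJL i (by omega)) (hJL (i + 1) hi)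
          (hJc i (by omega)) hy'L hy' h1
      · exact step_proximal ht hx hM hLM' (hJL i (by omega)) (hJc i (by omega))
          (hJc (i + 1) hi) hy'L hy' h1
  obtain ⟨y, hyL, hyM, U, hU, -, h1, h2⟩ := key h le_rfl
  rw [hJh] at h1 h2
  have e1 : act t U x = y := funext fun i => h1 i trivial
  have e2 : act t U y = y := funext fun i => h2 i trivial
  exact ⟨y, hyM, hU.prox (by rw [e1, e2]), hyL⟩

end

end Pool.Agent.Helper22.AEL
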